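import Pool.Agent.V5helper38.AA.Cls

/-!
Algebraic coefficients: if all kernel dimensions of rational matrices are integers for all groups of
a class closed under finite products, then so are those of matrices with algebraic coefficients.
-/

set_option autoImplicit false
set_option linter.unusedSectionVars false

open scoped InnerProductSpace ENNReal ComplexConjugate
open Filter Topology

namespace Pool.Agent.V5helper38.AA

open Pool.Agent.W656.VA
open Pool.Agent.H80R2
open Pool.Agent.H80R2.BC (L2 GMat vdim IsTr LInv Equi act kerA Coef)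
open Pool.Agent.H812R3
open Pool.Agent.TH25.AD

section blocks

variable {ι κ J G : Type} [Group G] [Fintype ι] [Fintype κ] [Fintype J]

open Classical in
/-- the block diagonal matrix of a family -/
noncomputable def blk (A : J → GMat κ ι G) : GMat (κ × J) (ι × J) G :=
  fun p q => if p.2 = q.2 then A p.2 p.1 q.1 else 0

theorem inj_blk (j : J) : Function.Injective (fun p : ι × G => ((p.1, j), p.2)) := by
  rintro ⟨a, b⟩ ⟨a', b'⟩ h
  simpa using h

/-- the `j`-th block of a vector -/
noncomputable def cb (j : J) : L2 ((ι × J) × G) →L[ℂ] L2 (ι × G) :=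
  KP.pull (fun p : ι × G => ((p.1, j), p.2)) (inj_blk j)

theorem cb_apply (j : J) (x : L2 ((ι × J) × G)) (i : ι) (g : G) :
    cb j x (i, g) = x ((i, j), g) := rfl

theorem act_blk (A : J → GMat κ ι G) (x : L2 ((ι × J) × G)) (k : κ) (j : J) (g : G) :
    act (blk A) x (k, j) g = act (A j) (cb j x) k g := by
  classical
  unfold act blk
  rw [Fintype.sum_prod_type]
  refine Finset.sum_congr rfl fun p _ => ?_
  rw [Finset.sum_eq_single j]
  · simp only [if_true]
    rfl
  · intro m _ hm
    simp only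
    rw [if_neg (fun h => hm h.symm)]
    simp
  · intro h
    exact absurd (Finset.mem_univ _) h

theorem mem_blk_iff (A : J → GMat κ ι G) (x : L2 ((ι × J) × G)) :
    x ∈ kerA (blk A) ↔ ∀ j, cb j x ∈ kerA (A j) := by
  constructor
  · intro h j k g
    rw [← act_blk]
    exact h (k, j) g
  · rintro h ⟨k, j⟩ g
    rw [act_blk]
    exact h j k g

theorem vdim_blk (A : J → GMat κ ι G) : vdim (kerA (blk A)) = ∑ j, vdim (kerA (A j)) := by
  classical
  have h := fun j => exists_vec (isClosed_kerA (A j))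
  choose u hu hu2 hu3 using h
  rw [vdim_of_vec (isClosed_kerA (blk A))
    (fun a => KP.push _ (inj_blk a.2) (u a.2 a.1))]
  · rw [Fintype.sum_prod_type_right]
    refine Finset.sum_congr rfl fun j _ => ?_
    rw [hu3]
    refine Finset.sum_congr rfl fun i _ => ?_
    rw [pushL_apply _ (inj_blk j) (u j i) (i, 1)]
  · rintro ⟨i, j⟩
    rw [mem_blk_iff]
    intro m
    by_cases hm : m = j
    · subst hm
      have e2 : cb m (KP.push _ (inj_blk m) (u m i)) = u m i := by
        ext a
        exact pushL_apply _ (inj_blk m) (u m i) a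
      show cb m (KP.push _ (inj_blk m) (u m i)) ∈ _
      rw [e2]
      exact hu _ _
    · have e1 : cb m (KP.push _ (inj_blk j) (u j i)) = 0 := by
        ext ⟨q, g⟩
        exact pushL_apply_ne _ (inj_blk j) _ _ (by
          rintro ⟨a, c⟩ h
          simp only [Prod.mk.injEq] at h
          exact hm h.1.2.symm)
      show cb m (KP.push _ (inj_blk j) (u j i)) ∈ _
      rw [e1]
      exact Submodule.zero_mem _
  · rintro ⟨i, j⟩ x hx
    rw [KP.push, ContinuousLinearMap.adjoint_inner_left]
    exact hu2 j i _ ((mem_blk_iff A x).1 hx j)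

end blocks

/-! ### matrices over a number field -/

section field

variable {K : Type} [Field K]

/-- matrices over `K[G]` -/
abbrev KMat (K : Type) [Field K] (κ ι G : Type) : Type := κ → ι → (G →₀ K)

/-- the complex matrix given by an embedding -/
noncomputable def mp {κ ι G : Type} (σ : K →+* ℂ) (B : KMat K κ ι G) : GMat κ ι G :=
  fun k i => (B k i).mapRange σ (map_zero σ)

/-- external products over `K` -/
noncomputable def extKM {ι κ G ι' κ' G' : Type} [Group G] [Group G'] (A : KMat K κ ι G)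
    (A' : KMat K κ' ι' G') : KMat K ((κ × ι') ⊕ (ι × κ')) (ι × ι') (G × G') := by
  classical
  exact Sum.elim
    (fun a p => if a.2 = p.2 then (A a.1 p.1).mapDomain (fun g => (g, (1 : G'))) else 0)
    (fun a p => if a.1 = p.1 then (A' a.2 p.2).mapDomain (fun g => ((1 : G), g)) else 0)

theorem mp_ext {ι κ G ι' κ' G' : Type} [Group G] [Group G'] (σ : K →+* ℂ) (A : KMat K κ ι G)
    (A' : KMat K κ' ι' G') : mp σ (extKM A A') = BC.ext (mp σ A) (mp σ A') := by
  classical
  funext a p
  rcases a with ⟨k, i'⟩ | ⟨i, k'⟩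
  · unfold mp extKM BC.ext
    simp only [Sum.elim_inl]
    split_ifs
    · exact (Finsupp.mapDomain_mapRange _ _ _ (map_zero σ) (map_add σ)).symm
    · exact Finsupp.mapRange_zero
  · unfold mp extKM BC.ext
    simp only [Sum.elim_inr]
    split_ifs
    · exact (Finsupp.mapDomain_mapRange _ _ _ (map_zero σ) (map_add σ)).symm
    · exact Finsupp.mapRange_zero

end field

/-! ### restriction of scalars -/

section restr

variable {K : Type} [Field K] [Algebra ℚ K]
variable {ι κ J G : Type} [Group G] [Fintype ι] [Fintype κ] [Fintype J] [DecidableEq J]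

/-- the rational matrix of a matrix over `K[G]` -/
noncomputable def rs (b : Module.Basis J ℚ K) (B : KMat K κ ι G) : GMat (κ × J) (ι × J) G :=
  fun p q => (B p.1 q.1).mapRange (fun a => ((Algebra.leftMulMatrix b a p.2 q.2 : ℚ) : ℂ))
    (by simp)

/-- the rational numbers in `ℂ` -/
noncomputable def Qs : Subring ℂ := (algebraMap ℚ ℂ).range

theorem mem_Qs (q : ℚ) : (q : ℂ) ∈ Qs := ⟨q, by simp⟩

theorem coef_rs (b : Module.Basis J ℚ K) (B : KMat K κ ι G) : Coef Qs (rs b B) := by
  intro p q h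
  show ((B p.1 q.1).mapRange _ _) h ∈ Qs
  rw [Finsupp.mapRange_apply]
  exact mem_Qs _

/-- the change of coordinates -/
noncomputable def LE (b : Module.Basis J ℚ K) (e : J ≃ (K →ₐ[ℚ] ℂ)) : (J → ℂ) →ₗ[ℂ] (J → ℂ) :=
  Matrix.mulVecLin (Matrix.of fun (j t : J) => e j (b t))

theorem LE_apply (b : Module.Basis J ℚ K) (e : J ≃ (K →ₐ[ℚ] ℂ)) (x : J → ℂ) (j : J) :
    LE b e x j = ∑ t, e j (b t) * x t := by
  unfold LE
  rw [Matrix.mulVecLin_apply]
  rfl

theorem exists_inv [FiniteDimensional ℚ K] (b : Module.Basis J ℚ K) (e : J ≃ (K →ₐ[ℚ] ℂ)) :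
    ∃ L : (J → ℂ) →ₗ[ℂ] (J → ℂ), (∀ x, L (LE b e x) = x) ∧ ∀ x, LE b e (L x) = x := by
  have h1 : Algebra.discr ℚ (b : J → K) ≠ 0 := Algebra.discr_not_zero_of_basis ℚ b
  have h2 := Algebra.discr_eq_det_embeddingsMatrixReindex_pow_two ℚ ℂ (b : J → K) e
  set M : Matrix J J ℂ := Matrix.of fun (j t : J) => e j (b t) with hM
  have h3 : Algebra.embeddingsMatrixReindex ℚ ℂ (b : J → K) e = M.transpose := by
    ext i j
    simp [Algebra.embeddingsMatrixReindex, hM]
  have h4 : M.det ≠ 0 := by
    intro h0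
    rw [h3, Matrix.det_transpose, h0] at h2
    have : (algebraMap ℚ ℂ) (Algebra.discr ℚ (b : J → K)) = 0 := by rw [h2]; simp
    exact h1 ((map_eq_zero _).1 this)
  have h5 : IsUnit M.det := isUnit_iff_ne_zero.2 h4
  refine ⟨Matrix.mulVecLin M⁻¹, fun x => ?_, fun x => ?_⟩
  · unfold LE
    rw [Matrix.mulVecLin_apply, Matrix.mulVecLin_apply, Matrix.mulVec_mulVec,
      Matrix.nonsing_inv_mul _ h5, Matrix.one_mulVec]
  · unfold LE
    rw [Matrix.mulVecLin_apply, Matrix.mulVecLin_apply, Matrix.mulVec_mulVec,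
      Matrix.mul_nonsing_inv _ h5, Matrix.one_mulVec]

theorem act_mp {G' : Type} [Group G'] (σ : K →+* ℂ) (B : KMat K κ ι G') (x : ι × G' → ℂ) (k : κ)
    (g : G') :
    act (mp σ B) x k g = ∑ i, (B k i).sum (fun h c => σ c * x (i, g * h)) := by
  unfold act mp
  refine Finset.sum_congr rfl fun i _ => ?_
  rw [Finsupp.sum_mapRange_index]
  intro h
  rw [zero_mul]

theorem act_rs (b : Module.Basis J ℚ K) (B : KMat K κ ι G) (x : (ι × J) × G → ℂ) (k : κ) (s : J)
    (g : G) :
    act (rs b B) x (k, s) g = ∑ i, ∑ t, (B k i).sum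
      (fun h c => ((Algebra.leftMulMatrix b c s t : ℚ) : ℂ) * x ((i, t), g * h)) := by
  unfold act rs
  rw [Fintype.sum_prod_type]
  refine Finset.sum_congr rfl fun i _ => Finset.sum_congr rfl fun t _ => ?_
  rw [Finsupp.sum_mapRange_index]
  intro h
  rw [zero_mul]

theorem mul_basis (b : Module.Basis J ℚ K) (σ : K →ₐ[ℚ] ℂ) (c : K) (t : J) :
    σ c * σ (b t) = ∑ s, σ (b s) * ((Algebra.leftMulMatrix b c s t : ℚ) : ℂ) := by
  rw [← map_mul, ← b.sum_repr (c * b t), map_sum]
  refine Finset.sum_congr rfl fun s _ => ?_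
  rw [map_smul, Algebra.leftMulMatrix_eq_repr_mul, Algebra.smul_def, mul_comm]
  rfl

theorem act_change (b : Module.Basis J ℚ K) (e : J ≃ (K →ₐ[ℚ] ℂ)) (B : KMat K κ ι G)
    (x : L2 ((ι × J) × G)) (k : κ) (j : J) (g : G) :
    act (blk fun j => mp (e j : K →+* ℂ) B) (op (sc ι G (LE b e)) x) (k, j) g =
      LE b e (fun s => act (rs b B) x (k, s) g) j := by
  rw [act_blk, act_mp, LE_apply]
  have h1 : ∀ i h, cb j (op (sc ι G (LE b e)) x) (i, h) = ∑ t, e j (b t) * x ((i, t), h) := by
    intro i h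
    rw [cb_apply, op_sc, LE_apply]
  simp only [h1, act_rs, Finsupp.sum, Finset.mul_sum]
  have h2 : ∀ i : ι, ∑ h ∈ (B k i).support, ∑ t, (e j : K →+* ℂ) ((B k i) h) *
      (e j (b t) * x ((i, t), g * h)) = ∑ s, ∑ t, ∑ h ∈ (B k i).support,
        e j (b s) * (((Algebra.leftMulMatrix b ((B k i) h) s t : ℚ) : ℂ) * x ((i, t), g * h)) := by
    intro i
    have h3 : ∀ h t, (e j : K →+* ℂ) ((B k i) h) * (e j (b t) * x ((i, t), g * h)) =
        ∑ s, e j (b s) * (((Algebra.leftMulMatrix b ((B k i) h) s t : ℚ) : ℂ) *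
          x ((i, t), g * h)) := by
      intro h t
      rw [← mul_assoc]
      have h4 : (e j : K →+* ℂ) ((B k i) h) * e j (b t) = _ := mul_basis b (e j) ((B k i) h) t
      rw [h4, Finset.sum_mul]
      refine Finset.sum_congr rfl fun s _ => ?_
      ring
    simp only [h3]
    calc ∑ h ∈ (B k i).support, ∑ t, ∑ s, e j (b s) *
          (((Algebra.leftMulMatrix b ((B k i) h) s t : ℚ) : ℂ) * x ((i, t), g * h))
        = ∑ h ∈ (B k i).support, ∑ s, ∑ t, e j (b s) *
          (((Algebra.leftMulMatrix b ((B k i) h) s t : ℚ) : ℂ) * x ((i, t), g * h)) :=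
          Finset.sum_congr rfl fun h _ => Finset.sum_comm
      _ = ∑ s, ∑ h ∈ (B k i).support, ∑ t, e j (b s) *
          (((Algebra.leftMulMatrix b ((B k i) h) s t : ℚ) : ℂ) * x ((i, t), g * h)) :=
          Finset.sum_comm
      _ = _ := Finset.sum_congr rfl fun s _ => Finset.sum_comm
  rw [Finset.sum_congr rfl fun i _ => h2 i, Finset.sum_comm]

/-- **Restriction of scalars.** -/
theorem vdim_rs [FiniteDimensional ℚ K] (b : Module.Basis J ℚ K) (e : J ≃ (K →ₐ[ℚ] ℂ))
    (B : KMat K κ ι G) :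
    vdim (kerA (rs b B)) = ∑ j, vdim (kerA (mp (e j : K →+* ℂ) B)) := by
  rw [← vdim_blk]
  obtain ⟨L, hL1, hL2⟩ := exists_inv b e
  have hinj : ∀ {v : J → ℂ}, LE b e v = 0 → v = 0 := by
    intro v hv
    rw [← hL1 v, hv, map_zero]
  have hcomp1 : ∀ x : L2 ((ι × J) × G), op (sc ι G L) (op (sc ι G (LE b e)) x) = x := by
    intro x
    ext ⟨⟨i, j⟩, g⟩
    rw [op_sc]
    simp only [op_sc]
    exact congrFun (hL1 _) j
  have hcomp2 : ∀ x : L2 ((ι × J) × G), op (sc ι G (LE b e)) (op (sc ι G L) x) = x := by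
    intro x
    ext ⟨⟨i, j⟩, g⟩
    rw [op_sc]
    simp only [op_sc]
    exact congrFun (hL2 _) j
  have hker : ∀ x : L2 ((ι × J) × G), x ∈ kerA (rs b B) ↔
      op (sc ι G (LE b e)) x ∈ kerA (blk fun j => mp (e j : K →+* ℂ) B) := by
    intro x
    constructor
    · rintro h ⟨k, j⟩ g
      rw [act_change]
      have : (fun s => act (rs b B) x (k, s) g) = 0 := by
        funext s
        exact h (k, s) g
      rw [this, map_zero]
      rfl
    · rintro h ⟨k, s⟩ g
      have h1 : LE b e (fun s => act (rs b B) x (k, s) g) = 0 := by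
        funext j
        rw [← act_change]
        exact h (k, j) g
      exact congrFun (hinj h1) s
  apply le_antisymm
  · refine vdim_inj_le (isClosed_kerA _) (linv_kerA _) (op (sc ι G (LE b e))) (equi_op _)
      (isClosed_kerA _) (fun x hx => (hker x).1 hx) ?_
    intro x _ h0
    rw [← hcomp1 x, h0, map_zero]
  · refine vdim_inj_le (isClosed_kerA _) (linv_kerA _) (op (sc ι G L)) (equi_op _)
      (isClosed_kerA _) (fun x hx => (hker _).2 (by rw [hcomp2]; exact hx)) ?_
    intro x _ h0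
    rw [← hcomp2 x, h0, map_zero]

end restr

end Pool.Agent.V5helper38.AA
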