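import Pool.Agent.V5helper38.AA.Cls
import Pool.Agent.TH25.AD.A8

/-!
All or nothing for small classes of groups; one group with a dense set of kernel dimensions; zero
divisors.
-/

set_option autoImplicit false
set_option linter.unusedSectionVars false

open scoped InnerProductSpace ENNReal ComplexConjugate
open Filter Topology

namespace Pool.Agent.V5helper38.AA

open Pool.Agent.W656.VA
open Pool.Agent.H80R2
open Pool.Agent.H80R2.BC (L2 GMat vdim IsTr LInv Equi act kerA Coef)
open Pool.Agent.H812R3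
open Pool.Agent.TH25.AD

section

variable {C : (G : Type) → [Group G] → Prop} {R : Subring ℂ}

theorem VVmul (hC : ∀ (G H : Type) [Group G] [Group H], C G → C H → C (G × H)) {v w : ℝ}
    (h : VV C R v) (h' : VV C R w) : VV C R (v * w) := by
  obtain ⟨H, _, hH, h⟩ := h
  obtain ⟨H', _, hH', h'⟩ := h'
  exact ⟨H × H', inferInstance, hC H H' hH hH', val_mul h h'⟩

theorem VVpow (hC : ∀ (G H : Type) [Group G] [Group H], C G → C H → C (G × H)) {v : ℝ}
    (h : VV C R v) (n : ℕ) : VV C R (v ^ (n + 1)) := by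
  induction n with
  | zero => simpa using h
  | succ n ih =>
    rw [pow_succ]
    exact VVmul hC ih h

/-- an interval of values, from subset sums -/
theorem interval_of {β d : ℝ} (h1 : 1 / 2 ≤ β) (h2 : β < 1)
    (key : ∀ (S : Set ℕ) [DecidablePred (· ∈ S)], ∃ w : ℝ,
      HasSum (fun n : ℕ => if n ∈ S then (1 - β) ^ 2 * β ^ n else 0) w ∧ VV C R (w + d)) :
    ∀ r : ℝ, 0 ≤ r → r ≤ 1 - β → VV C R (r + d) := by
  classical
  intro r hr0 hr1
  have h3 : 0 < 1 - β := by linarith
  have h4 : (1 - β) ^ 2 ≠ 0 := by positivity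
  have h5 := greedy h1 h2 (t := r / (1 - β) ^ 2) (by positivity) (by
    rw [div_le_div_iff₀ (by positivity) h3]
    nlinarith)
  set S : Set ℕ := {n | 1 ≤ rem β (r / (1 - β) ^ 2) n} with hS
  obtain ⟨w, hw, hval⟩ := key S
  have h6 : HasSum (fun n : ℕ => if n ∈ S then (1 - β) ^ 2 * β ^ n else 0) r := by
    have h7 := h5.mul_left ((1 - β) ^ 2)
    have e1 : (1 - β) ^ 2 * (r / (1 - β) ^ 2) = r := by field_simp
    rw [e1] at h7
    have e3 : (fun n : ℕ => if n ∈ S then (1 - β) ^ 2 * β ^ n else 0)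
        = fun n : ℕ => (1 - β) ^ 2 * (if 1 ≤ rem β (r / (1 - β) ^ 2) n then β ^ n else 0) := by
      funext n
      by_cases hn : 1 ≤ rem β (r / (1 - β) ^ 2) n
      · rw [if_pos hn, if_pos (show n ∈ S from hn)]
      · rw [if_neg hn, if_neg (show n ∉ S from hn), mul_zero]
    rw [e3]
    exact h7
  rw [hw.unique h6] at hval
  exact hval

/-- **All or nothing**, for values: a group `G` with a kernel dimension which is not an integer,
and the group of the machine. -/
theorem all_values_gen (hC : ∀ (G H : Type) [Group G] [Group H], C G → C H → C (G × H))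
    (hR : ∀ c ∈ R, conj c ∈ R) {G : Type} [Group G] (hG : C G) (htf : TF G) (hHs : C (Hs G))
    (h : ∃ v : ℝ, Val R G v ∧ ¬ ∃ z : ℤ, v = z) (r : ℝ) (hr : 0 ≤ r) : VV C R r := by
  classical
  obtain ⟨ι, κ, _, _, A, T, hA, hT, hAT, h0, h1⟩ := min_cut h
  set α := vdim (kerA A) with hα
  have hαV : VV C R α := ⟨G, inferInstance, hG, val_of A hA⟩
  rcases hr.eq_or_lt with rfl | hr
  · exact ⟨G, inferInstance, hG, val_zero⟩
  -- small values
  have hsmall : ∀ ε : ℝ, 0 < ε → ∃ e : ℝ, 0 < e ∧ e < ε ∧ VV C R e := by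
    intro ε hε
    obtain ⟨n, hn⟩ := exists_pow_lt_of_lt_one hε h1
    refine ⟨α ^ (n + 1), pow_pos h0 _, ?_, VVpow hC hαV n⟩
    refine lt_of_le_of_lt ?_ hn
    exact pow_le_pow_of_le_one h0.le h1.le (Nat.le_succ n)
  -- an interval of values
  set d : ℝ := 4 * (Fintype.card κ - Fintype.card ι + vdim (kerA A)) with hd0
  obtain ⟨δ, hδ0, hint⟩ : ∃ δ : ℝ, 0 < δ ∧ ∀ r : ℝ, 0 ≤ r → r ≤ δ → VV C R (r + d) := by
    rcases le_total (1 / 2) α with h2 | h2
    · refine ⟨1 - α, by linarith, interval_of h2 h1 ?_⟩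
      intro S _
      obtain ⟨⟨w, hw, hw2⟩, _⟩ := value' hR htf A T hA hT hAT h0 h1 S
      exact ⟨w, hw, Hs G, inferInstance, hHs, hw2⟩
    · refine ⟨1 - (1 - α), by linarith, interval_of (by linarith) (by linarith) ?_⟩
      intro S _
      obtain ⟨_, w, hw, hw2⟩ := value' hR htf A T hA hT hAT h0 h1 S
      refine ⟨w, ?_, Hs G, inferInstance, hHs, hw2⟩
      rw [sub_sub_cancel]
      exact hw
  have hd : 0 ≤ d := by
    have := (hint 0 le_rfl hδ0.le).nonneg
    linarith
  have hdδ : 0 < d + δ := by linarith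
  -- all large values
  have hlarge : ∀ t : ℝ, 0 < t → d * (d + δ) / δ ≤ t → VV C R t := by
    intro t ht0 ht
    set n := ⌈t / (d + δ)⌉₊ with hn
    have hn0 : 0 < n := Nat.ceil_pos.2 (by positivity)
    have hn0' : (0 : ℝ) < n := by exact_mod_cast hn0
    have h3 : t / (d + δ) ≤ n := Nat.le_ceil _
    have h4 : (n : ℝ) < t / (d + δ) + 1 := Nat.ceil_lt_add_one (by positivity)
    have h5 : t / n ≤ d + δ := by
      rw [div_le_iff₀ hn0']
      rw [div_le_iff₀ hdδ] at h3
      linarith
    have h6 : d ≤ t / n := by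
      rw [le_div_iff₀ hn0']
      have h7 : d * n ≤ d * (t / (d + δ) + 1) := mul_le_mul_of_nonneg_left h4.le hd
      have h8 : d * (t / (d + δ) + 1) ≤ t := by
        rw [div_le_iff₀ hδ0] at ht
        have e : d * (t / (d + δ) + 1) = (d * t + d * (d + δ)) / (d + δ) := by field_simp
        rw [e, div_le_iff₀ hdδ]
        nlinarith
      linarith
    have h9 := (hint (t / n - d) (by linarith) (by linarith)).nsmul n
    have e : (n : ℝ) * (t / n - d + d) = t := by
      rw [sub_add_cancel]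
      field_simp
    rwa [e] at h9
  -- all values
  set M := d * (d + δ) / δ + 1 with hM
  have hM0 : 0 < M := by positivity
  obtain ⟨e, he0, he1, he⟩ := hsmall (r / M) (by positivity)
  have h10 : M ≤ r / e := by
    rw [le_div_iff₀ he0]
    rw [lt_div_iff₀ hM0] at he1
    linarith
  have h11 := VVmul hC he (hlarge (r / e) (by positivity) (by linarith))
  have e2 : e * (r / e) = r := by field_simp
  rwa [e2] at h11

/-- **All or nothing**, for values. -/
theorem all_values (hC : Kl C) (hR : ∀ c ∈ R, conj c ∈ R)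
    (h : ∃ v : ℝ, VV C R v ∧ ¬ ∃ z : ℤ, v = z) (r : ℝ) (hr : 0 ≤ r) : VV C R r := by
  obtain ⟨v, ⟨G, _, hG, hv⟩, hvz⟩ := h
  exact all_values_gen hC.prod hR hG (hC.tf G hG) (hC.hs hG) ⟨v, hv, hvz⟩ r hr

end

/-! ### one group -/

theorem val_powers {R : Subring ℂ} {G : Type} [Group G]
    (hGG : ∃ f : G × G →* G, Function.Injective f) {v : ℝ} (hv : Val R G v) (n : ℕ) :
    Val R G (v ^ (n + 1)) := by
  obtain ⟨f, hf⟩ := hGG
  induction n with
  | zero => simpa using hv
  | succ n ih =>
    rw [pow_succ]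
    exact val_incl f hf (val_mul ih hv)

/-- a group which contains its square: integers, or a dense set -/
theorem dense_values {R : Subring ℂ} {G : Type} [Group G]
    (hGG : ∃ f : G × G →* G, Function.Injective f)
    (h : ∃ v : ℝ, Val R G v ∧ ¬ ∃ z : ℤ, v = z) (a b : ℝ) (ha : 0 ≤ a) (hab : a < b) :
    ∃ v : ℝ, a < v ∧ v < b ∧ Val R G v := by
  obtain ⟨ι, κ, _, _, A, T, hA, hT, hAT, h0, h1⟩ := min_cut h
  set α := vdim (kerA A) with hα
  obtain ⟨n, hn⟩ := exists_pow_lt_of_lt_one (sub_pos.2 hab) h1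
  set e := α ^ (n + 1) with he
  have he0 : 0 < e := pow_pos h0 _
  have he1 : e < b - a := by
    refine lt_of_le_of_lt ?_ hn
    exact pow_le_pow_of_le_one h0.le h1.le (Nat.le_succ n)
  refine ⟨(⌊a / e⌋₊ + 1 : ℕ) * e, ?_, ?_, val_nsmul (val_powers hGG (val_of A hA) n) _⟩
  · have h2 := Nat.lt_floor_add_one (a / e)
    rw [div_lt_iff₀ he0] at h2
    push_cast
    exact h2
  · have h2 : (⌊a / e⌋₊ : ℝ) ≤ a / e := Nat.floor_le (div_nonneg ha he0.le)
    rw [le_div_iff₀ he0] at h2
    push_cast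
    nlinarith

/-! ### zero divisors -/

/-- `x a = 0` with nonzero `x`, `a` in the group ring: the kernel of `a` has a dimension strictly
between `0` and `1`. -/
theorem zero_div {G : Type} [Group G] (A : Matrix (Fin 1) (Fin 1) (G →₀ ℂ)) (x : L2 (Fin 1 × G))
    (hx : x ≠ 0) (hxA : x ∈ kernelSet A) (hA : A 0 0 ≠ 0) : 0 < kerDim A ∧ kerDim A < 1 := by
  rw [kerDim_eq]
  have hxk : x ∈ kerA (cv A) := by
    rw [kernelSet_eq] at hxA
    exact hxA
  constructor
  · rcases (vdim_nonneg (kerA (cv A))).lt_or_eq with h | h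
    · exact h
    · have h1 := eq_bot_of_vdim (isClosed_kerA (cv A)) (linv_kerA (cv A)) h.symm.le
      rw [h1, Submodule.mem_bot] at hxk
      exact absurd hxk hx
  · rcases (vdim_le_card (kerA (cv A))).lt_or_eq with h | h
    · simpa using h
    · exfalso
      have h1 := eq_of_vdim (isClosed_kerA (cv A)) (linv_kerA (cv A)) (L := ⊤) isClosed_univ
        (fun _ _ _ _ _ => trivial) le_top (by rw [vdim_top, h])
      obtain ⟨g, hg⟩ := Finsupp.ne_iff.1 hA
      have h2 : de ((0 : Fin 1), (1 : G)) ∈ kerA (cv A) := by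
        rw [h1]
        trivial
      have h3 : de ((0 : Fin 1), (1 : G)) ∈ kernelSet A := by
        rw [kernelSet_eq]
        exact h2
      have h4 := h3 0 g
      rw [Fin.sum_univ_one, Finsupp.sum_eq_single g] at h4
      · rw [mul_inv_cancel, de_apply_self, one_mul] at h4
        exact hg h4
      · intro b _ hb
        rw [de_apply_ne, zero_mul]
        intro hcon
        apply hb
        have h5 := (Prod.mk.injEq _ _ _ _).mp hcon
        exact (mul_inv_eq_one.1 h5.2).symm
      · intro _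
        rw [mul_zero]

end Pool.Agent.V5helper38.AA
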