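import Pool.Agent.V5helper38.AA.Alg
import Pool.Agent.V5helper38.AA.All

/-!
Algebraic coefficients, rational coefficients, integer coefficients; zero divisors in complex group
rings.
-/

set_option autoImplicit false
set_option linter.unusedSectionVars false

open scoped InnerProductSpace ENNReal ComplexConjugate
open Filter Topology

namespace Pool.Agent.V5helper38.AA

open Pool.Agent.W656.VA
open Pool.Agent.H80R2
open Pool.Agent.H80R2.BC (L2 GMat vdim IsTr LInv Equi act kerA Coef)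
open Pool.Agent.H812R3
open Pool.Agent.TH25.AD

/-- the algebraic numbers -/
noncomputable def Qb : Subring ℂ := (algebraicClosure ℚ ℂ).toSubring

theorem mem_Qb {c : ℂ} : c ∈ Qb ↔ IsAlgebraic ℚ c := mem_algebraicClosure_iff

/-- powers -/
theorem powers_K {C : (G : Type) → [Group G] → Prop} (hC : Kl C) {K : Type} [Field K] {G : Type}
    [Group G] (hG : C G) {ι κ : Type} [Fintype ι] [Fintype κ] (B : KMat K κ ι G) (k : ℕ) :
    ∃ (H : Type) (_ : Group H) (ι' κ' : Type) (_ : Fintype ι') (_ : Fintype κ')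
      (B' : KMat K κ' ι' H), C H ∧
        ∀ σ : K →+* ℂ, vdim (kerA (mp σ B')) = vdim (kerA (mp σ B)) ^ (k + 1) := by
  induction k with
  | zero => exact ⟨G, inferInstance, ι, κ, inferInstance, inferInstance, B, hG, by simp⟩
  | succ k ih =>
    obtain ⟨H, _, ι', κ', _, _, B', hH, hB'⟩ := ih
    refine ⟨H × G, inferInstance, ι' × ι, (κ' × ι) ⊕ (ι' × κ), inferInstance, inferInstance,
      extKM B' B, hC.prod H G hH hG, fun σ => ?_⟩
    rw [mp_ext, vdim_ext, hB', pow_succ _ (k + 1)]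

/-- a sum of powers -/
theorem int_of_sums {J : Type} [Fintype J] (v : J → ℝ)
    (h1 : ∀ j, (¬ ∃ z : ℤ, v j = z) → 0 < v j ∧ v j < 1)
    (h2 : ∀ k : ℕ, ∃ z : ℤ, ∑ j, v j ^ (k + 1) = z) (j0 : J) : ∃ z : ℤ, v j0 = z := by
  classical
  by_contra hj0
  set F : Finset J := Finset.univ.filter fun j => ¬ ∃ z : ℤ, v j = z with hF
  have hmem : ∀ j, j ∈ F ↔ ¬ ∃ z : ℤ, v j = z := by simp [hF]
  have h3 : ∀ k : ℕ, ∃ z : ℤ, ∑ j ∈ F, v j ^ (k + 1) = z := by
    intro k
    obtain ⟨z, hz⟩ := h2 k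
    have h4 : ∀ j ∈ Finset.univ \ F, ∃ z : ℤ, v j = z := by
      intro j hj
      rw [Finset.mem_sdiff, hmem, not_not] at hj
      exact hj.2
    obtain ⟨z', hz'⟩ : ∃ z' : ℤ, ∑ j ∈ Finset.univ \ F, v j ^ (k + 1) = z' := by
      choose! y hy using h4
      refine ⟨∑ j ∈ Finset.univ \ F, y j ^ (k + 1), ?_⟩
      push_cast
      exact Finset.sum_congr rfl fun j hj => by rw [hy j hj]
    refine ⟨z - z', ?_⟩
    have h5 := Finset.sum_sdiff (Finset.subset_univ F) (f := fun j => v j ^ (k + 1))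
    rw [hz, hz'] at h5
    push_cast
    linarith
  have h4 : Tendsto (fun k : ℕ => ∑ j ∈ F, v j ^ (k + 1)) atTop (𝓝 0) := by
    have h5 : Tendsto (fun k : ℕ => ∑ j ∈ F, v j ^ (k + 1)) atTop (𝓝 (∑ _j ∈ F, (0 : ℝ))) := by
      apply tendsto_finsetSum
      intro j hj
      obtain ⟨a, b⟩ := h1 j ((hmem j).1 hj)
      exact (tendsto_add_atTop_iff_nat 1).2 (tendsto_pow_atTop_nhds_zero_of_lt_one a.le b)
    simpa using h5
  obtain ⟨k, hk⟩ := (h4.eventually (gt_mem_nhds one_pos)).exists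
  obtain ⟨z, hz⟩ := h3 k
  have h5 : 0 < ∑ j ∈ F, v j ^ (k + 1) := by
    apply Finset.sum_pos
    · intro j hj
      exact pow_pos (h1 j ((hmem j).1 hj)).1 _
    · exact ⟨j0, (hmem j0).2 hj0⟩
  rw [hz] at hk h5
  have h6 : (0 : ℤ) < z := by exact_mod_cast h5
  have h7 : z < (1 : ℤ) := by exact_mod_cast hk
  omega

/-- **Algebraic coefficients.** -/
theorem alg_int {C : (G : Type) → [Group G] → Prop} (hC : Kl C)
    (hQ : ∀ (G : Type) [Group G], C G → ∀ v : ℝ, Val Qs G v → ∃ z : ℤ, v = z) :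
    ∀ (G : Type) [Group G], C G → ∀ v : ℝ, Val Qb G v → ∃ z : ℤ, v = z := by
  classical
  by_contra hno
  push Not at hno
  obtain ⟨G0, _, hG0, v0, ⟨m0, n0, A0, hA0, rfl⟩, hv0⟩ := hno
  let P : ℕ → Prop := fun m => ∃ (G : Type) (_ : Group G) (ι κ : Type) (_ : Fintype ι)
    (_ : Fintype κ) (A : GMat κ ι G), C G ∧ Fintype.card ι = m ∧ Coef Qb A ∧
      ¬ ∃ z : ℤ, vdim (kerA A) = z
  have hP : ∃ m, P m := ⟨m0, G0, inferInstance, Fin m0, Fin n0, inferInstance, inferInstance, A0,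
    hG0, Fintype.card_fin m0, hA0, by push Not; exact hv0⟩
  obtain ⟨G, _, ι, κ, _, _, A, hG, hcard, hA, hv⟩ := Nat.find_spec hP
  have hsmall : ∀ A' : GMat κ ι G, Coef Qb A' → (¬ ∃ z : ℤ, vdim (kerA A') = z) →
      0 < vdim (kerA A') ∧ vdim (kerA A') < 1 := by
    intro A' hA' hv'
    obtain ⟨T, _, _, h3⟩ := min_col A' hA' (by
      intro ι' κ' _ _ A'' hlt hA''
      by_contra hcon
      rw [hcard] at hlt
      exact Nat.find_min hP hlt ⟨G, inferInstance, ι', κ', inferInstance, inferInstance, A'', hG,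
        rfl, hA'', hcon⟩) hv'
    exact h3
  -- the field of the coefficients
  set S : Finset ℂ := Finset.univ.biUnion fun k : κ => Finset.univ.biUnion fun i : ι =>
    (A k i).support.image (A k i) with hS
  have hSalg : ∀ x ∈ (S : Set ℂ), IsIntegral ℚ x := by
    intro x hx
    rw [hS, Finset.mem_coe, Finset.mem_biUnion] at hx
    obtain ⟨k, _, hx⟩ := hx
    rw [Finset.mem_biUnion] at hx
    obtain ⟨i, _, hx⟩ := hx
    obtain ⟨g, _, rfl⟩ := Finset.mem_image.1 hx
    exact isAlgebraic_iff_isIntegral.1 (mem_Qb.1 (hA k i g))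
  let K : IntermediateField ℚ ℂ := IntermediateField.adjoin ℚ (S : Set ℂ)
  have hfin : FiniteDimensional ℚ K := IntermediateField.finiteDimensional_adjoin hSalg
  have hAK : ∀ k i g, A k i g ∈ K := by
    intro k i g
    by_cases h0 : A k i g = 0
    · rw [h0]
      exact K.zero_mem
    · apply IntermediateField.subset_adjoin
      rw [hS, Finset.mem_coe, Finset.mem_biUnion]
      refine ⟨k, Finset.mem_univ _, ?_⟩
      rw [Finset.mem_biUnion]
      exact ⟨i, Finset.mem_univ _, Finset.mem_image.2 ⟨g, Finsupp.mem_support_iff.2 h0, rfl⟩⟩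
  let f : ℂ → K := fun c => if h : c ∈ K then ⟨c, h⟩ else 0
  have hf0 : f 0 = 0 := by
    show (if h : (0 : ℂ) ∈ K then (⟨0, h⟩ : K) else 0) = 0
    rw [dif_pos K.zero_mem]
    rfl
  let B : KMat K κ ι G := fun k i => (A k i).mapRange f hf0
  have hBA : mp (algebraMap K ℂ) B = A := by
    funext k i
    ext g
    show ((algebraMap K ℂ) (f (A k i g))) = A k i g
    have : f (A k i g) = ⟨A k i g, hAK k i g⟩ := dif_pos (hAK k i g)
    rw [this]
    rfl
  -- the embeddings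
  let e : Fin (Module.finrank ℚ K) ≃ (K →ₐ[ℚ] ℂ) :=
    (Fintype.equivFinOfCardEq (AlgHom.card ℚ K ℂ)).symm
  let b : Module.Basis (Fin (Module.finrank ℚ K)) ℚ K := Module.finBasis ℚ K
  have hcoef : ∀ σ : K →ₐ[ℚ] ℂ, Coef Qb (mp (σ : K →+* ℂ) B) := by
    intro σ k i g
    rw [mem_Qb]
    show IsAlgebraic ℚ (σ ((B k i) g))
    exact (Algebra.IsAlgebraic.isAlgebraic (R := ℚ) ((B k i) g)).algHom σ
  let v : Fin (Module.finrank ℚ K) → ℝ := fun j => vdim (kerA (mp (e j : K →+* ℂ) B))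
  have h1 : ∀ j, (¬ ∃ z : ℤ, v j = z) → 0 < v j ∧ v j < 1 := fun j hj =>
    hsmall _ (hcoef (e j)) hj
  have h2 : ∀ k : ℕ, ∃ z : ℤ, ∑ j, v j ^ (k + 1) = z := by
    intro k
    obtain ⟨H, _, ι', κ', _, _, B', hH, hB'⟩ := powers_K hC hG B k
    obtain ⟨z, hz⟩ := hQ H hH _ (val_of (rs b B') (coef_rs b B'))
    refine ⟨z, ?_⟩
    rw [← hz, vdim_rs b e B']
    exact Finset.sum_congr rfl fun j _ => (hB' _).symm
  obtain ⟨z, hz⟩ := int_of_sums v h1 h2 (e.symm (IsScalarTower.toAlgHom ℚ K ℂ))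
  apply hv
  refine ⟨z, ?_⟩
  rw [← hz, ← hBA]
  show _ = vdim (kerA (mp (e (e.symm (IsScalarTower.toAlgHom ℚ K ℂ)) : K →+* ℂ) B))
  rw [e.apply_symm_apply]
  rfl

/-! ### rational and integer coefficients -/

theorem common_den (T : Finset ℂ) : ∃ N : ℕ, N ≠ 0 ∧ ∀ c ∈ T, c ∈ Qs →
    (N : ℂ) * c ∈ (⊥ : Subring ℂ) := by
  classical
  induction T using Finset.induction_on with
  | empty => exact ⟨1, one_ne_zero, by simp⟩
  | insert a s _ ih =>
    obtain ⟨N, hN, h⟩ := ih
    by_cases ha : a ∈ Qs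
    · obtain ⟨q, hq⟩ := ha
      refine ⟨q.den * N, mul_ne_zero q.den_nz hN, ?_⟩
      intro c hc hcQ
      rcases Finset.mem_insert.1 hc with rfl | hc
      · rw [Subring.mem_bot]
        refine ⟨N * q.num, ?_⟩
        rw [← hq]
        have h1 : ((q.den : ℕ) : ℂ) * (algebraMap ℚ ℂ q) = q.num := by
          have h2 : (q.den : ℚ) * q = q.num := by rw [mul_comm]; exact Rat.mul_den_eq_num q
          have h3 := congrArg (algebraMap ℚ ℂ) h2
          rw [map_mul] at h3
          simpa using h3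
        push_cast
        rw [mul_comm (q.den : ℂ) (N : ℂ), mul_assoc, h1]
      · have := h c hc hcQ
        push_cast
        rw [mul_assoc]
        exact Subring.mul_mem _ (Subring.mem_bot.2 ⟨q.den, by simp⟩) this
    · refine ⟨N, hN, ?_⟩
      intro c hc hcQ
      rcases Finset.mem_insert.1 hc with rfl | hc
      · exact absurd hcQ ha
      · exact h c hc hcQ

/-- rational matrices and integer matrices have the same kernels -/
theorem val_Qs {G : Type} [Group G] {v : ℝ} (hv : Val Qs G v) : Val (⊥ : Subring ℂ) G v := by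
  classical
  obtain ⟨m, n, A, hA, rfl⟩ := hv
  obtain ⟨N, hN, h⟩ := common_den (Finset.univ.biUnion fun k : Fin n =>
    Finset.univ.biUnion fun i : Fin m => (A k i).support.image (A k i))
  refine ⟨m, n, fun k i => (N : ℂ) • A k i, ?_, ?_⟩
  · intro k i g
    rw [Finsupp.smul_apply, smul_eq_mul]
    by_cases h0 : A k i g = 0
    · rw [h0, mul_zero]
      exact Subring.zero_mem _
    · refine h _ ?_ (hA k i g)
      rw [Finset.mem_biUnion]
      refine ⟨k, Finset.mem_univ _, ?_⟩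
      rw [Finset.mem_biUnion]
      exact ⟨i, Finset.mem_univ _, Finset.mem_image.2 ⟨g, Finsupp.mem_support_iff.2 h0, rfl⟩⟩
  · congr 1
    ext x
    rw [mem_kerA, mem_kerA]
    have h1 : ∀ k g, act (fun k i => (N : ℂ) • A k i) x k g = (N : ℂ) * act A x k g := by
      intro k g
      unfold act
      rw [Finset.mul_sum]
      refine Finset.sum_congr rfl fun i _ => ?_
      rw [Finsupp.sum_smul_index (by intro i; rw [zero_mul]), Finsupp.mul_sum]
      refine Finsupp.sum_congr fun h _ => ?_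
      rw [mul_assoc]
    have hN' : (N : ℂ) ≠ 0 := Nat.cast_ne_zero.2 hN
    constructor
    · intro hx k g
      have := hx k g
      rw [h1] at this
      exact (mul_eq_zero.1 this).resolve_left hN'
    · intro hx k g
      rw [h1, hx k g, mul_zero]

theorem conj_bot : ∀ c ∈ (⊥ : Subring ℂ), (starRingEnd ℂ) c ∈ (⊥ : Subring ℂ) := by
  intro c hc
  obtain ⟨k, rfl⟩ := Subring.mem_bot.1 hc
  rw [map_intCast]
  exact Subring.mem_bot.2 ⟨k, rfl⟩

/-- **All or nothing**: one kernel dimension with algebraic coefficients which is not an integer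
gives all numbers, with integer coefficients. -/
theorem all_of_alg {C : (G : Type) → [Group G] → Prop} (hC : Kl C)
    (h : ∃ v : ℝ, VV C Qb v ∧ ¬ ∃ z : ℤ, v = z) (r : ℝ) (hr : 0 ≤ r) :
    VV C (⊥ : Subring ℂ) r := by
  refine all_values hC conj_bot ?_ r hr
  by_contra hno
  push Not at hno
  obtain ⟨v, ⟨G, _, hG, hv⟩, hvz⟩ := h
  apply hvz
  refine alg_int hC ?_ G hG v hv
  intro H _ hH w hw
  obtain ⟨z, hz⟩ := hno w ⟨H, inferInstance, hH, val_Qs hw⟩
  exact ⟨z, hz⟩

/-! ### zero divisors -/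

/-- a finitely supported vector -/
noncomputable def fv {G : Type} [Group G] (x : MonoidAlgebra ℂ G) : L2 (Fin 1 × G) :=
  ∑ g ∈ x.coeff.support, x.coeff g • de ((0 : Fin 1), g)

theorem fv_apply {G : Type} [Group G] (x : MonoidAlgebra ℂ G) (g : G) :
    fv x (0, g) = x.coeff g := by
  classical
  unfold fv
  rw [lp.coeFn_sum, Finset.sum_apply]
  by_cases hg : g ∈ x.coeff.support
  · rw [Finset.sum_eq_single g]
    · rw [lp.coeFn_smul, Pi.smul_apply, de_apply_self, smul_eq_mul, mul_one]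
    · intro h _ hh
      rw [lp.coeFn_smul, Pi.smul_apply, de_apply_ne, smul_zero]
      intro hcon
      exact hh (congrArg Prod.snd hcon).symm
    · intro h
      exact absurd hg h
  · rw [Finset.sum_eq_zero]
    · exact (Finsupp.notMem_support_iff.1 hg).symm
    · intro h hh
      rw [lp.coeFn_smul, Pi.smul_apply, de_apply_ne, smul_zero]
      intro hcon
      have h1 : g = h := congrArg Prod.snd hcon
      apply hg
      rw [h1]
      exact hh

/-- zero divisors with coefficients in `R` -/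
theorem val_of_zero_div {R : Subring ℂ} {G : Type} [Group G] (x a : MonoidAlgebra ℂ G) (hx : x ≠ 0)
    (ha : a ≠ 0) (hxa : x * a = 0) (haR : ∀ g, a.coeff g ∈ R) :
    ∃ v : ℝ, Val R G v ∧ ¬ ∃ z : ℤ, v = z := by
  set A : Matrix (Fin 1) (Fin 1) (G →₀ ℂ) := Matrix.of fun _ _ => a.coeff with hA
  have h1 := zero_div A (fv x) (by
    intro h0
    apply hx
    apply MonoidAlgebra.ext
    ext g
    rw [← fv_apply, h0]
    rfl) (by
    intro j g
    rw [Fin.sum_univ_one]
    have h2 := MonoidAlgebra.coeff_mul_apply_right x a g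
    rw [hxa] at h2
    show (a.coeff.sum fun h c => fv x (0, g * h⁻¹) * c) = 0
    simp only [fv_apply]
    rw [← h2]
    rfl) (by
    intro h0
    apply ha
    apply MonoidAlgebra.ext
    exact h0)
  refine ⟨kerDim A, val_kerDim A (fun _ _ g => haR g), ?_⟩
  rintro ⟨z, hz⟩
  rw [hz] at h1
  have h2 : (0 : ℤ) < z := by exact_mod_cast h1.1
  have h3 : z < (1 : ℤ) := by exact_mod_cast h1.2
  omega

theorem exists_lift (F : Type) [Field F] [Algebra ℚ F] (h : Algebra.IsAlgebraic ℚ F) :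
    Nonempty (F →ₐ[ℚ] ℂ) := ⟨IsAlgClosed.lift⟩

/-- zero divisors can be chosen with algebraic coefficients -/
theorem alg_zero_div {G : Type} [Group G] (x a : MonoidAlgebra ℂ G) (hx : x ≠ 0)
    (ha : a ≠ 0) (hxa : x * a = 0) : ∃ x' a' : MonoidAlgebra ℂ G, x' ≠ 0 ∧ a' ≠ 0 ∧ x' * a' = 0 ∧
      ∀ g, a'.coeff g ∈ Qb := by
  classical
  obtain ⟨g0, hg0⟩ : ∃ g, x.coeff g ≠ 0 := by
    by_contra hcon
    push Not at hcon
    exact hx (MonoidAlgebra.ext (Finsupp.ext hcon))
  obtain ⟨h0, hh0⟩ : ∃ g, a.coeff g ≠ 0 := by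
    by_contra hcon
    push Not at hcon
    exact ha (MonoidAlgebra.ext (Finsupp.ext hcon))
  set S : Finset ℂ := x.coeff.support.image x.coeff ∪ a.coeff.support.image a.coeff ∪
    {(x.coeff g0)⁻¹, (a.coeff h0)⁻¹} with hS
  let B : Subalgebra ℚ ℂ := Algebra.adjoin ℚ (S : Set ℂ)
  have hSB : ∀ c ∈ S, c ∈ B := fun c hc => Algebra.subset_adjoin (Finset.mem_coe.2 hc)
  have hft : Algebra.FiniteType ℚ B := Subalgebra.fg_iff_finiteType _ |>.1 ⟨S, rfl⟩
  have hxB : ∀ g, x.coeff g ∈ B := by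
    intro g
    by_cases h : x.coeff g = 0
    · rw [h]; exact B.zero_mem
    · apply hSB
      rw [hS, Finset.mem_union, Finset.mem_union]
      exact Or.inl (Or.inl (Finset.mem_image.2 ⟨g, Finsupp.mem_support_iff.2 h, rfl⟩))
  have haB : ∀ g, a.coeff g ∈ B := by
    intro g
    by_cases h : a.coeff g = 0
    · rw [h]; exact B.zero_mem
    · apply hSB
      rw [hS, Finset.mem_union, Finset.mem_union]
      exact Or.inl (Or.inr (Finset.mem_image.2 ⟨g, Finsupp.mem_support_iff.2 h, rfl⟩))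
  have hxi : (x.coeff g0)⁻¹ ∈ B := by
    apply hSB
    rw [hS, Finset.mem_union]
    right
    simp
  have hai : (a.coeff h0)⁻¹ ∈ B := by
    apply hSB
    rw [hS, Finset.mem_union]
    right
    simp
  -- a homomorphism to the algebraic numbers
  obtain ⟨M, hM⟩ := Ideal.exists_maximal B
  let _ : Field (B ⧸ M) := Ideal.Quotient.field M
  have hft2 : Algebra.FiniteType ℚ (B ⧸ M) :=
    Algebra.FiniteType.of_surjective (Ideal.Quotient.mkₐ ℚ M) (Ideal.Quotient.mkₐ_surjective ℚ M)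
  have hfin : Module.Finite ℚ (B ⧸ M) := finite_of_finite_type_of_isJacobsonRing ℚ (B ⧸ M)
  have halg : Algebra.IsAlgebraic ℚ (B ⧸ M) := Algebra.IsAlgebraic.of_finite ℚ (B ⧸ M)
  obtain ⟨ψ0⟩ := exists_lift (B ⧸ M) halg
  let ψ : B →ₐ[ℚ] ℂ := ψ0.comp (Ideal.Quotient.mkₐ ℚ M)
  have hψ : ∀ c : B, ψ c ∈ Qb := by
    intro c
    rw [mem_Qb]
    exact (halg.isAlgebraic (Ideal.Quotient.mkₐ ℚ M c)).algHom _
  -- lifting to `B`
  let f : ℂ → B := fun c => if h : c ∈ B then ⟨c, h⟩ else 0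
  have hf0 : f 0 = 0 := by
    show (if h : (0 : ℂ) ∈ B then (⟨0, h⟩ : B) else 0) = 0
    rw [dif_pos B.zero_mem]
    rfl
  have hf : ∀ c (h : c ∈ B), f c = ⟨c, h⟩ := fun c h => dif_pos h
  let xB : MonoidAlgebra B G := .ofCoeff (x.coeff.mapRange f hf0)
  let aB : MonoidAlgebra B G := .ofCoeff (a.coeff.mapRange f hf0)
  have hxc : ∀ g, xB.coeff g = ⟨x.coeff g, hxB g⟩ := fun g => hf _ _
  have hac : ∀ g, aB.coeff g = ⟨a.coeff g, haB g⟩ := fun g => hf _ _
  have hxm : MonoidAlgebra.mapRingHom G (B.val : B →+* ℂ) xB = x := by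
    apply MonoidAlgebra.ext
    ext g
    rw [MonoidAlgebra.coeff_mapRingHom, hxc]
    rfl
  have ham : MonoidAlgebra.mapRingHom G (B.val : B →+* ℂ) aB = a := by
    apply MonoidAlgebra.ext
    ext g
    rw [MonoidAlgebra.coeff_mapRingHom, hac]
    rfl
  have hprod : xB * aB = 0 := by
    apply MonoidAlgebra.ext
    ext g
    have h1 : MonoidAlgebra.mapRingHom G (B.val : B →+* ℂ) (xB * aB) = 0 := by
      rw [map_mul, hxm, ham, hxa]
    have h2 := congrArg (fun y : MonoidAlgebra ℂ G => y.coeff g) h1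
    simp only [MonoidAlgebra.coeff_mapRingHom] at h2
    exact h2
  have hunit : ∀ c : ℂ, c ≠ 0 → ∀ (h : c ∈ B) (h' : c⁻¹ ∈ B), ψ ⟨c, h⟩ ≠ 0 := by
    intro c hc h h' h0
    have h1 : (⟨c, h⟩ : B) * ⟨c⁻¹, h'⟩ = 1 := Subtype.ext (mul_inv_cancel₀ hc)
    have h2 := congrArg ψ h1
    rw [map_mul, h0, zero_mul, map_one] at h2
    exact zero_ne_one h2
  refine ⟨MonoidAlgebra.mapRingHom G (ψ : B →+* ℂ) xB, MonoidAlgebra.mapRingHom G (ψ : B →+* ℂ) aB,
    ?_, ?_, ?_, ?_⟩
  · intro h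
    have h1 := congrArg (fun y : MonoidAlgebra ℂ G => y.coeff g0) h
    simp only [MonoidAlgebra.coeff_mapRingHom] at h1
    rw [hxc] at h1
    exact hunit _ hg0 _ hxi h1
  · intro h
    have h1 := congrArg (fun y : MonoidAlgebra ℂ G => y.coeff h0) h
    simp only [MonoidAlgebra.coeff_mapRingHom] at h1
    rw [hac] at h1
    exact hunit _ hh0 _ hai h1
  · rw [← map_mul, hprod, map_zero]
  · intro g
    rw [MonoidAlgebra.coeff_mapRingHom]
    exact hψ _

/-- a zero divisor in `ℂ[G]` for one group of the class -/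
theorem all_of_zero_div {C : (G : Type) → [Group G] → Prop} (hC : Kl C) {G : Type} [Group G]
    (hG : C G) (x a : MonoidAlgebra ℂ G) (hx : x ≠ 0) (ha : a ≠ 0) (hxa : x * a = 0) (r : ℝ)
    (hr : 0 ≤ r) : VV C (⊥ : Subring ℂ) r := by
  obtain ⟨x', a', hx', ha', hxa', haQ⟩ := alg_zero_div x a hx ha hxa
  obtain ⟨v, hv, hvz⟩ := val_of_zero_div (R := Qb) x' a' hx' ha' hxa' haQ
  exact all_of_alg hC ⟨v, ⟨G, inferInstance, hG, hv⟩, hvz⟩ r hr

end Pool.Agent.V5helper38.AA
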