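import Pool.Agent.V5helper38.AA.Cls

/-!
The torsion-free amenable groups (Foelner condition) are closed under subgroups, finite direct
products, directed unions and semidirect products with `ℤ`.
-/

set_option autoImplicit false
set_option linter.unusedSectionVars false

namespace Pool.Agent.V5helper38.AA

open Pool.Agent.TH25.AD

/-- the Foelner condition -/
def Amen (G : Type) [Group G] : Prop :=
  ∀ (S : Finset G) (ε : ℝ), 0 < ε → ∃ F : Finset G, F.Nonempty ∧
    ∀ s ∈ S, ({x : G | x ∈ F ∧ s * x ∉ F}.ncard : ℝ) ≤ ε * F.card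

open Classical in
/-- the points which are moved out of `F` -/
noncomputable def bad {G : Type} [Group G] (F : Finset G) (s : G) : Finset G :=
  F.filter fun x => s * x ∉ F

theorem ncard_bad {G : Type} [Group G] (F : Finset G) (s : G) :
    {x : G | x ∈ F ∧ s * x ∉ F}.ncard = (bad F s).card := by
  rw [← Set.ncard_coe_finset]
  congr 1
  ext x
  simp [bad]

theorem mem_bad {G : Type} [Group G] (F : Finset G) (s x : G) :
    x ∈ bad F s ↔ x ∈ F ∧ s * x ∉ F := by
  simp [bad]

theorem amen_iff {G : Type} [Group G] : Amen G ↔ ∀ (S : Finset G) (ε : ℝ), 0 < ε →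
    ∃ F : Finset G, F.Nonempty ∧ ∀ s ∈ S, ((bad F s).card : ℝ) ≤ ε * F.card := by
  unfold Amen
  simp only [ncard_bad]

/-- a change of coordinates -/
theorem amen_loc {G : Type} [Group G] (h : ∀ K : Subgroup G, K.FG → Amen K) : Amen G := by
  classical
  rw [amen_iff]
  intro S ε hε
  have hK : (Subgroup.closure (S : Set G)).FG := ⟨S, rfl⟩
  let em : {x // x ∈ S} → Subgroup.closure (S : Set G) := fun s =>
    ⟨s.1, Subgroup.subset_closure s.2⟩
  obtain ⟨F, hF, hb⟩ := amen_iff.1 (h _ hK) (S.attach.image em) ε hε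
  refine ⟨F.map ⟨Subtype.val, Subtype.val_injective⟩, hF.map, fun s hs => ?_⟩
  have h1 := hb ⟨s, Subgroup.subset_closure hs⟩
    (Finset.mem_image.2 ⟨⟨s, hs⟩, Finset.mem_attach _ _, rfl⟩)
  rw [Finset.card_map]
  refine le_trans ?_ h1
  have h2 : bad (F.map ⟨Subtype.val, Subtype.val_injective⟩) s ⊆
      (bad F ⟨s, Subgroup.subset_closure hs⟩).map ⟨Subtype.val, Subtype.val_injective⟩ := by
    intro x hx
    rw [mem_bad] at hx
    obtain ⟨hx1, hx2⟩ := hx
    obtain ⟨y, hy, rfl⟩ := Finset.mem_map.1 hx1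
    refine Finset.mem_map.2 ⟨y, ?_, rfl⟩
    rw [mem_bad]
    refine ⟨hy, fun h3 => hx2 ?_⟩
    exact Finset.mem_map.2 ⟨_, h3, rfl⟩
  have h3 := Finset.card_le_card h2
  rw [Finset.card_map] at h3
  exact_mod_cast h3

theorem amen_prod {G H : Type} [Group G] [Group H] (hG : Amen G) (hH : Amen H) :
    Amen (G × H) := by
  classical
  rw [amen_iff]
  intro S ε hε
  obtain ⟨F, hF, hFb⟩ := amen_iff.1 hG (S.image Prod.fst) (ε / 2) (by positivity)
  obtain ⟨E, hE, hEb⟩ := amen_iff.1 hH (S.image Prod.snd) (ε / 2) (by positivity)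
  refine ⟨F ×ˢ E, hF.product hE, fun s hs => ?_⟩
  have h1 := hFb s.1 (Finset.mem_image_of_mem _ hs)
  have h2 := hEb s.2 (Finset.mem_image_of_mem _ hs)
  have h3 : bad (F ×ˢ E) s ⊆ bad F s.1 ×ˢ E ∪ F ×ˢ bad E s.2 := by
    rintro ⟨x, y⟩ hxy
    rw [mem_bad, Finset.mem_product] at hxy
    rw [Finset.mem_union, Finset.mem_product, Finset.mem_product, mem_bad, mem_bad]
    obtain ⟨⟨hx, hy⟩, hxy⟩ := hxy
    by_cases h4 : s.1 * x ∈ F
    · right
      refine ⟨hx, hy, fun h5 => hxy ?_⟩
      exact Finset.mem_product.2 ⟨h4, h5⟩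
    · left
      exact ⟨⟨hx, h4⟩, hy⟩
  have h4 := (Finset.card_le_card h3).trans (Finset.card_union_le _ _)
  rw [Finset.card_product, Finset.card_product] at h4
  rw [Finset.card_product]
  have h5 : ((bad (F ×ˢ E) s).card : ℝ) ≤ (bad F s.1).card * E.card + F.card * (bad E s.2).card := by
    exact_mod_cast h4
  refine h5.trans ?_
  push_cast
  have hE0 : (0 : ℝ) ≤ E.card := Nat.cast_nonneg _
  have hF0 : (0 : ℝ) ≤ F.card := Nat.cast_nonneg _
  nlinarith [mul_le_mul_of_nonneg_right h1 hE0, mul_le_mul_of_nonneg_left h2 hF0]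

theorem amen_sub {G H : Type} [Group G] [Group H] (f : G →* H) (hf : Function.Injective f)
    (hH : Amen H) : Amen G := by
  classical
  rw [amen_iff]
  intro S ε hε
  set N : ℝ := S.card + 1 with hN
  have hN0 : 0 < N := by positivity
  obtain ⟨F, hF, hFb⟩ := amen_iff.1 hH (S.image f) (ε / N) (by positivity)
  -- the classes
  let q : H → Quotient (QuotientGroup.rightRel f.range) := fun x => Quotient.mk _ x
  have hq : ∀ x y : H, q x = q y ↔ ∃ g : G, f g * y = x := by
    intro x y
    rw [Quotient.eq (r := QuotientGroup.rightRel f.range)]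
    constructor
    · intro h
      have h1 := QuotientGroup.rightRel_apply.1 h
      obtain ⟨g, hg⟩ := h1
      refine ⟨g⁻¹, ?_⟩
      rw [map_inv, hg]
      group
    · rintro ⟨g, rfl⟩
      apply QuotientGroup.rightRel_apply.2
      refine ⟨g⁻¹, ?_⟩
      rw [map_inv]
      group
  have hsum : ∑ c ∈ F.image q, ∑ s ∈ S, (((bad F (f s)).filter fun x => q x = c).card : ℝ) ≤
      ∑ c ∈ F.image q, ε * ((F.filter fun x => q x = c).card : ℝ) := by
    rw [Finset.sum_comm, ← Finset.mul_sum]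
    have h1 : ∑ c ∈ F.image q, ((F.filter fun x => q x = c).card : ℝ) = F.card := by
      rw [← Nat.cast_sum]
      congr 1
      exact (Finset.card_eq_sum_card_image q F).symm
    rw [h1]
    have h2 : ∀ s ∈ S, ∑ c ∈ F.image q, (((bad F (f s)).filter fun x => q x = c).card : ℝ) ≤
        ε / N * F.card := by
      intro s hs
      refine le_trans ?_ (hFb (f s) (Finset.mem_image_of_mem _ hs))
      rw [← Nat.cast_sum]
      have h3 : ∀ x ∈ bad F (f s), q x ∈ F.image q := by
        intro x hx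
        exact Finset.mem_image_of_mem _ ((mem_bad _ _ _).1 hx).1
      exact_mod_cast (Finset.card_eq_sum_card_fiberwise h3).symm.le
    calc ∑ s ∈ S, ∑ c ∈ F.image q, (((bad F (f s)).filter fun x => q x = c).card : ℝ)
        ≤ ∑ _s ∈ S, ε / N * F.card := Finset.sum_le_sum h2
      _ = S.card * (ε / N * F.card) := by rw [Finset.sum_const, nsmul_eq_mul]
      _ ≤ N * (ε / N * F.card) := by
        refine mul_le_mul_of_nonneg_right ?_ (by positivity)
        rw [hN]
        linarith
      _ = ε * F.card := by field_simp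
  obtain ⟨c, hc, hcb⟩ := Finset.exists_le_of_sum_le (hF.image q) hsum
  obtain ⟨x0, hx0, hx0c⟩ := Finset.mem_image.1 hc
  have hinj : Function.Injective fun g : G => f g * x0 := fun a b hab =>
    hf (mul_right_cancel hab)
  set E : Finset G := F.preimage (fun g : G => f g * x0) hinj.injOn with hE
  have hEm : ∀ g, g ∈ E ↔ f g * x0 ∈ F := fun g => Finset.mem_preimage
  have hEc : (F.filter fun x => q x = c) = E.map ⟨fun g : G => f g * x0, hinj⟩ := by
    ext x
    rw [Finset.mem_filter, Finset.mem_map]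
    constructor
    · rintro ⟨h1, h2⟩
      rw [← hx0c, hq] at h2
      obtain ⟨g, rfl⟩ := h2
      exact ⟨g, (hEm g).2 h1, rfl⟩
    · rintro ⟨g, hg, rfl⟩
      refine ⟨(hEm g).1 hg, ?_⟩
      rw [← hx0c, hq]
      exact ⟨g, rfl⟩
  refine ⟨E, ⟨1, (hEm 1).2 (by rwa [map_one, one_mul])⟩, fun s hs => ?_⟩
  have h1 : (((bad F (f s)).filter fun x => q x = c).card : ℝ) ≤ ε * E.card := by
    rw [hEc, Finset.card_map] at hcb
    refine le_trans ?_ hcb
    exact Finset.single_le_sum
      (f := fun s => (((bad F (f s)).filter fun x => q x = c).card : ℝ))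
      (fun _ _ => Nat.cast_nonneg _) hs
  refine le_trans ?_ h1
  have h2 : (bad E s).map ⟨fun g : G => f g * x0, hinj⟩ ⊆
      (bad F (f s)).filter fun x => q x = c := by
    intro x hx
    obtain ⟨g, hg, rfl⟩ := Finset.mem_map.1 hx
    rw [mem_bad, hEm, hEm, map_mul] at hg
    rw [Finset.mem_filter, mem_bad]
    refine ⟨⟨hg.1, ?_⟩, ?_⟩
    · show f s * (f g * x0) ∉ F
      rw [← mul_assoc]
      exact hg.2
    · rw [← hx0c, hq]
      exact ⟨g, rfl⟩
  have h3 := Finset.card_le_card h2
  rw [Finset.card_map] at h3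
  exact_mod_cast h3

/-- extensions by `ℤ` -/
theorem amen_coord {K D : Type} [Group K] [Group D] (hD : Amen D) (e : ℤ × D → K)
    (he : Function.Injective e)
    (hs : ∀ s : K, ∃ (a : ℤ) (θ : ℤ → D), ∀ i y, s * e (i, y) = e (a + i, θ i * y)) :
    Amen K := by
  classical
  rw [amen_iff]
  intro S ε hε
  choose a θ hθ using hs
  obtain ⟨A, hA⟩ : ∃ A : ℕ, ∀ s ∈ S, (a s).natAbs ≤ A :=
    ⟨S.sup fun s => (a s).natAbs, fun s hs => Finset.le_sup (f := fun s => (a s).natAbs) hs⟩
  obtain ⟨n, hn⟩ := exists_nat_gt (2 * A / ε)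
  have hn' : (A : ℝ) ≤ ε / 2 * n := by
    rw [div_lt_iff₀ hε] at hn
    linarith
  have hn0 : 0 < n := by
    have h1 : (0 : ℝ) ≤ 2 * A / ε := by positivity
    have h2 : (0 : ℝ) < n := lt_of_le_of_lt h1 hn
    exact_mod_cast h2
  obtain ⟨F, hF, hFS⟩ := amen_iff.1 hD ((S ×ˢ Finset.Ico (0 : ℤ) n).image fun p => θ p.1 p.2)
    (ε / 2) (by positivity)
  set E : Finset K := (Finset.Ico (0 : ℤ) n ×ˢ F).image e with hE
  have hmem : ∀ (i : ℤ) (y : D), e (i, y) ∈ E ↔ (0 ≤ i ∧ i < n) ∧ y ∈ F := by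
    intro i y
    rw [hE, Finset.mem_image]
    constructor
    · rintro ⟨⟨j, z⟩, hj, hjz⟩
      have := he hjz
      rw [Finset.mem_product, Finset.mem_Ico] at hj
      obtain ⟨rfl, rfl⟩ := Prod.mk.inj this
      exact hj
    · intro h
      exact ⟨(i, y), Finset.mem_product.2 ⟨Finset.mem_Ico.2 h.1, h.2⟩, rfl⟩
  have hcard : E.card = n * F.card := by
    rw [hE, Finset.card_image_of_injective _ he, Finset.card_product, Int.card_Ico]
    congr 1
  have hFpos : 0 < F.card := hF.card_pos
  refine ⟨E, Finset.card_pos.1 (by rw [hcard]; positivity), fun s hsS => ?_⟩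
  set D' : Finset ℤ := (Finset.Ico (0 : ℤ) n).filter fun i => ¬ (0 ≤ a s + i ∧ a s + i < n) with hD'
  have hDc : D'.card ≤ A := by
    have h1 : D' ⊆ Finset.Ico (0 : ℤ) (-a s) ∪ Finset.Ico ((n : ℤ) - a s) n := by
      intro i hi
      rw [hD', Finset.mem_filter, Finset.mem_Ico] at hi
      rw [Finset.mem_union, Finset.mem_Ico, Finset.mem_Ico]
      omega
    refine (Finset.card_le_card h1).trans ((Finset.card_union_le _ _).trans ?_)
    rw [Int.card_Ico, Int.card_Ico]
    have := hA s hsS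
    omega
  have hsub : bad E s ⊆ ((Finset.Ico (0 : ℤ) n).biUnion fun i =>
      (bad F (θ s i)).image fun y => e (i, y)) ∪ (D' ×ˢ F).image e := by
    intro x hx
    rw [mem_bad] at hx
    obtain ⟨hx1, hx2⟩ := hx
    obtain ⟨⟨i, y⟩, hi, rfl⟩ := Finset.mem_image.1 hx1
    rw [Finset.mem_product] at hi
    have hi1 : i ∈ Finset.Ico (0 : ℤ) n := hi.1
    have hi2 : y ∈ F := hi.2
    rw [hθ, hmem] at hx2
    rw [Finset.mem_union]
    by_cases hy : θ s i * y ∈ F
    · right
      refine Finset.mem_image.2 ⟨(i, y), Finset.mem_product.2 ⟨?_, hi2⟩, rfl⟩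
      rw [hD', Finset.mem_filter]
      exact ⟨hi1, fun h => hx2 ⟨h, hy⟩⟩
    · left
      refine Finset.mem_biUnion.2 ⟨i, hi1, Finset.mem_image.2 ⟨y, ?_, rfl⟩⟩
      rw [mem_bad]
      exact ⟨hi2, hy⟩
  have h1 : (bad E s).card ≤ (∑ i ∈ Finset.Ico (0 : ℤ) n, (bad F (θ s i)).card) +
      D'.card * F.card := by
    refine (Finset.card_le_card hsub).trans ((Finset.card_union_le _ _).trans
      (add_le_add ?_ ?_))
    · exact Finset.card_biUnion_le.trans (Finset.sum_le_sum fun i _ => Finset.card_image_le)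
    · exact Finset.card_image_le.trans (Finset.card_product _ _).le
  have h2 : ∀ i ∈ Finset.Ico (0 : ℤ) n, ((bad F (θ s i)).card : ℝ) ≤ ε / 2 * F.card := by
    intro i hi
    exact hFS (θ s i) (Finset.mem_image.2 ⟨(s, i), Finset.mem_product.2 ⟨hsS, hi⟩, rfl⟩)
  have h3 : (∑ i ∈ Finset.Ico (0 : ℤ) n, ((bad F (θ s i)).card : ℝ)) ≤ n * (ε / 2 * F.card) := by
    refine (Finset.sum_le_sum h2).trans ?_
    rw [Finset.sum_const, Int.card_Ico, nsmul_eq_mul]
    have : ((n : ℤ) - 0).toNat = n := by omega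
    rw [this]
  have h4 : ((bad E s).card : ℝ) ≤ (∑ i ∈ Finset.Ico (0 : ℤ) n, ((bad F (θ s i)).card : ℝ)) +
      D'.card * F.card := by
    exact_mod_cast h1
  have h5 : (D'.card : ℝ) * F.card ≤ ε / 2 * n * F.card := by
    refine mul_le_mul_of_nonneg_right ?_ (Nat.cast_nonneg _)
    refine le_trans ?_ hn'
    exact_mod_cast hDc
  rw [hcard]
  push_cast
  nlinarith

theorem amen_sd {G : Type} [Group G] (s : MulAut G) (hG : Amen G) :
    Amen (G ⋊[zpowersHom (MulAut G) s] Multiplicative ℤ) := by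
  refine amen_coord hG (fun p => (⟨(s ^ p.1) p.2, Multiplicative.ofAdd p.1⟩ :
    G ⋊[zpowersHom (MulAut G) s] Multiplicative ℤ)) ?_ ?_
  · rintro ⟨i, y⟩ ⟨j, z⟩ h
    have h1 := congrArg SemidirectProduct.right h
    have h2 := congrArg SemidirectProduct.left h
    have h3 : i = j := Multiplicative.ofAdd.injective h1
    subst h3
    have h4 : y = z := (s ^ i).injective h2
    rw [h4]
  · intro x
    refine ⟨Multiplicative.toAdd x.right, fun i =>
      (s ^ (-(Multiplicative.toAdd x.right + i))) x.left, fun i y => ?_⟩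
    apply SemidirectProduct.ext
    · rw [SemidirectProduct.mul_left]
      show x.left * (zpowersHom (MulAut G) s x.right) ((s ^ i) y) =
        (s ^ (Multiplicative.toAdd x.right + i))
          ((s ^ (-(Multiplicative.toAdd x.right + i))) x.left * y)
      rw [zpowersHom_apply, map_mul, ← MulAut.mul_apply, ← MulAut.mul_apply, ← zpow_add,
        ← zpow_add, add_neg_cancel, zpow_zero, MulAut.one_apply]
    · rfl

/-- torsion-free groups -/
theorem kl_tf : Kl (fun (G : Type) [Group G] => TF G) := by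
  refine ⟨fun G _ h => h, ?_, ?_, ?_, ?_⟩
  · intro G H _ _ f hf hH g n hn hg
    apply hf
    rw [map_one]
    refine hH _ n hn ?_
    rw [← map_pow, hg, map_one]
  · intro G H _ _ hG hH
    exact tf_prod hG hH
  · intro G _ h g n hn hg
    have h1 := h (Subgroup.closure {g}) ⟨{g}, by simp⟩ ⟨g, Subgroup.subset_closure rfl⟩ n hn
      (Subtype.ext hg)
    exact congrArg Subtype.val h1
  · intro G _ s hG g n hn hg
    have h1 : g.right = 1 := by
      refine tf_int _ n hn ?_
      have := congrArg SemidirectProduct.rightHom hg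
      rw [map_pow, map_one] at this
      exact this
    have h2 : g = SemidirectProduct.inl g.left := by
      apply SemidirectProduct.ext
      · rfl
      · rw [h1]
        rfl
    rw [h2, ← map_pow] at hg
    have h3 : g.left ^ n = 1 := by
      apply SemidirectProduct.inl_injective (φ := zpowersHom (MulAut G) s)
      rw [hg, map_one]
    rw [h2, hG _ n hn h3, map_one]

/-- torsion-free amenable groups -/
theorem kl_amen : Kl (fun (G : Type) [Group G] => TF G ∧ Amen G) where
  tf := fun G _ h => h.1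
  sub := fun G H _ _ f hf h => ⟨kl_tf.sub G H f hf h.1, amen_sub f hf h.2⟩
  prod := fun G H _ _ h h' => ⟨kl_tf.prod G H h.1 h'.1, amen_prod h.2 h'.2⟩
  loc := fun G _ h => ⟨kl_tf.loc G fun K hK => (h K hK).1, amen_loc fun K hK => (h K hK).2⟩
  sd := fun G _ s h => ⟨kl_tf.sd G s h.1, amen_sd s h.2⟩

end Pool.Agent.V5helper38.AA
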