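import Pool.Agent.V5helper38.AA.Machine

/-!
Classes of torsion-free groups closed under subgroups, finite direct products, directed unions and
semidirect products with `ℤ`; they contain the groups of the machine.
-/

set_option autoImplicit false
set_option linter.unusedSectionVars false

namespace Pool.Agent.V5helper38.AA

open Pool.Agent.TH25.AD

/-- A class of torsion-free groups closed under subgroups, finite direct products, directed unions
and semidirect products with `ℤ`. -/
structure Kl (C : (G : Type) → [Group G] → Prop) : Prop where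
  tf : ∀ (G : Type) [Group G], C G → TF G
  sub : ∀ (G H : Type) [Group G] [Group H] (f : G →* H), Function.Injective f → C H → C G
  prod : ∀ (G H : Type) [Group G] [Group H], C G → C H → C (G × H)
  loc : ∀ (G : Type) [Group G], (∀ K : Subgroup G, K.FG → C K) → C G
  sd : ∀ (G : Type) [Group G] (s : MulAut G), C G →
    C (G ⋊[zpowersHom (MulAut G) s] Multiplicative ℤ)

namespace Kl

variable {C : (G : Type) → [Group G] → Prop}

/-- trivial groups -/
theorem triv (hC : Kl C) {G : Type} [Group G] (hG : C G) {H : Type} [Group H]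
    (h : ∀ x : H, x = 1) : C H := by
  refine hC.sub H G 1 ?_ hG
  intro x y _
  rw [h x, h y]

/-- extensions with a cyclic quotient -/
theorem ext_int (hC : Kl C) {G : Type} [Group G] (p : G →* Multiplicative ℤ) (h : C p.ker) :
    C G := by
  by_cases hp : ∀ x, p x = 1
  · refine hC.sub G p.ker
      { toFun := fun x => ⟨x, hp x⟩
        map_one' := rfl
        map_mul' := fun _ _ => rfl } ?_ h
    intro x y hxy
    exact congrArg Subtype.val hxy
  · -- a generator of the range
    obtain ⟨g, hg⟩ : ∃ g : G, ∀ x : G, ∃ k : ℤ, p x = (p g) ^ k := by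
      obtain ⟨y, hy⟩ := IsCyclic.exists_generator (α := p.range)
      obtain ⟨⟨_, ⟨g, rfl⟩⟩, rfl⟩ : ∃ y' : p.range, y' = y := ⟨y, rfl⟩
      refine ⟨g, fun x => ?_⟩
      obtain ⟨k, hk⟩ := Subgroup.mem_zpowers_iff.1 (hy ⟨p x, ⟨x, rfl⟩⟩)
      refine ⟨k, ?_⟩
      have := congrArg (Subtype.val : p.range → Multiplicative ℤ) hk
      rw [Subgroup.coe_zpow] at this
      exact this.symm
    have hg1 : p g ≠ 1 := by
      intro h1
      apply hp
      intro x
      obtain ⟨k, hk⟩ := hg x
      rw [hk, h1, one_zpow]
    have hz : ∀ k : ℤ, (p g) ^ k = 1 → k = 0 := by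
      intro k hk
      have h1 : k * Multiplicative.toAdd (p g) = 0 := by
        have := congrArg Multiplicative.toAdd hk
        rw [toAdd_zpow, toAdd_one, smul_eq_mul] at this
        exact this
      rcases mul_eq_zero.1 h1 with h2 | h2
      · exact h2
      · exact absurd (Multiplicative.toAdd.injective h2) hg1
    set s : MulAut p.ker := MulAut.conjNormal g with hs
    have hsz : ∀ (k : ℤ) (x : p.ker), (((s ^ k) x : p.ker) : G) = g ^ k * x * (g ^ k)⁻¹ := by
      intro k x
      rw [hs, ← map_zpow, MulAut.conjNormal_apply]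
    let φ : p.ker ⋊[zpowersHom (MulAut p.ker) s] Multiplicative ℤ →* G :=
      SemidirectProduct.lift p.ker.subtype (zpowersHom G g) (by
        intro k
        ext x
        show (((zpowersHom (MulAut p.ker) s k) x : p.ker) : G) =
          zpowersHom G g k * x * (zpowersHom G g k)⁻¹
        rw [zpowersHom_apply, zpowersHom_apply, hsz])
    have hφ : ∀ a, φ a = (a.left : G) * g ^ (Multiplicative.toAdd a.right) := by
      intro a
      rfl
    have hinj : Function.Injective φ := by
      rw [injective_iff_map_eq_one]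
      intro a ha
      rw [hφ] at ha
      have h1 : p ((a.left : G) * g ^ (Multiplicative.toAdd a.right)) = 1 := by rw [ha, map_one]
      rw [map_mul, map_zpow, show p (a.left : G) = 1 from a.left.2, one_mul] at h1
      have h2 := hz _ h1
      rw [h2, zpow_zero, mul_one] at ha
      apply SemidirectProduct.ext
      · exact Subtype.ext ha
      · exact Multiplicative.toAdd.injective h2
    have hsurj : Function.Surjective φ := by
      intro x
      obtain ⟨k, hk⟩ := hg x
      refine ⟨⟨⟨x * (g ^ k)⁻¹, ?_⟩, Multiplicative.ofAdd k⟩, ?_⟩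
      · rw [MonoidHom.mem_ker, map_mul, map_inv, map_zpow, hk, mul_inv_cancel]
      · rw [hφ]
        show x * (g ^ k)⁻¹ * g ^ k = x
        rw [inv_mul_cancel_right]
    exact hC.sub G _ (MulEquiv.ofBijective φ ⟨hinj, hsurj⟩).symm.toMonoidHom
      (MulEquiv.injective _) (hC.sd _ s h)

/-- extensions with a free abelian quotient -/
theorem ext_fin (hC : Kl C) (n : ℕ) : ∀ (G : Type) [Group G] (f : G →* (Fin n → Multiplicative ℤ)),
    C f.ker → C G := by
  induction n with
  | zero =>
    intro G _ f h
    refine hC.sub G f.ker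
      { toFun := fun x => ⟨x, Subsingleton.elim _ _⟩
        map_one' := rfl
        map_mul' := fun _ _ => rfl } ?_ h
    intro x y hxy
    exact congrArg Subtype.val hxy
  | succ n ih =>
    intro G _ f h
    set p : G →* Multiplicative ℤ := (Pi.evalMonoidHom _ (Fin.last n)).comp f with hp
    apply hC.ext_int p
    set f' : p.ker →* (Fin n → Multiplicative ℤ) :=
      { toFun := fun x i => f x (Fin.castSucc i)
        map_one' := by
          funext i
          rw [Subgroup.coe_one, map_one]
          rfl
        map_mul' := by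
          intro x y
          funext i
          rw [Subgroup.coe_mul, map_mul]
          rfl } with hf'
    apply ih _ f'
    have hmem : ∀ x : f'.ker, ((x : p.ker) : G) ∈ f.ker := by
      rintro ⟨x, hx⟩
      rw [MonoidHom.mem_ker]
      funext i
      refine Fin.lastCases ?_ (fun j => ?_) i
      · exact x.2
      · exact congrFun (MonoidHom.mem_ker.1 hx) j
    refine hC.sub f'.ker f.ker
      { toFun := fun x => ⟨((x : p.ker) : G), hmem x⟩
        map_one' := rfl
        map_mul' := fun _ _ => rfl } ?_ h
    intro x y hxy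
    have h1 : ((x : p.ker) : G) = ((y : p.ker) : G) :=
      congrArg (Subtype.val : f.ker → G) hxy
    exact Subtype.ext (Subtype.ext h1)

/-- coordinates on finitely generated torsion-free abelian groups -/
theorem exists_coord {A : Type} [CommGroup A] (hA : TF A) (hfg : Group.FG A) :
    ∃ (n : ℕ) (e : A →* (Fin n → Multiplicative ℤ)), Function.Injective e := by
  have h1 : AddGroup.FG (Additive A) := GroupFG.iff_add_fg.1 hfg
  have h2 : Module.Finite ℤ (Additive A) := Module.Finite.iff_addGroup_fg.2 h1
  have h3 : IsAddTorsionFree (Additive A) := by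
    refine ⟨fun n hn a b hab => ?_⟩
    have h4 : (Additive.toMul a) ^ n = (Additive.toMul b) ^ n := congrArg Additive.toMul hab
    have h5 : (Additive.toMul a * (Additive.toMul b)⁻¹) ^ n = 1 := by
      rw [mul_pow, inv_pow, h4, mul_inv_cancel]
    have h6 := hA _ n (Nat.pos_of_ne_zero hn) h5
    exact Additive.toMul.injective (mul_inv_eq_one.1 h6)
  have h4 : Module.IsTorsionFree ℤ (Additive A) := inferInstance
  have h5 : Module.Free ℤ (Additive A) := inferInstance
  set b := Module.finBasis ℤ (Additive A) with hb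
  refine ⟨Module.finrank ℤ (Additive A),
    { toFun := fun a i => Multiplicative.ofAdd (b.repr (Additive.ofMul a) i)
      map_one' := ?_
      map_mul' := ?_ }, ?_⟩
  · funext i
    rw [ofMul_one, map_zero]
    rfl
  · intro x y
    funext i
    rw [ofMul_mul, map_add]
    rfl
  · intro x y hxy
    apply Additive.ofMul.injective
    apply b.repr.injective
    ext i
    exact Multiplicative.ofAdd.injective (congrFun hxy i)

/-- extensions with a torsion-free abelian quotient -/
theorem ext_ab (hC : Kl C) {G Q : Type} [Group G] [CommGroup Q] (hQ : TF Q) (f : G →* Q)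
    (h : C f.ker) : C G := by
  apply hC.loc
  intro K hK
  have hK' : Group.FG K := (Group.fg_iff_subgroup_fg K).2 hK
  set fK : K →* Q := f.comp K.subtype with hfK
  have h1 : Group.FG fK.range := inferInstance
  obtain ⟨n, e, he⟩ := exists_coord (A := fK.range) (tf_sub hQ _) h1
  apply hC.ext_fin n K (e.comp fK.rangeRestrict)
  have hmem : ∀ x : (e.comp fK.rangeRestrict).ker, ((x : K) : G) ∈ f.ker := by
    rintro ⟨x, hx⟩
    rw [MonoidHom.mem_ker] at hx
    have h2 : fK.rangeRestrict x = 1 := by
      apply he
      rw [map_one]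
      exact hx
    exact congrArg Subtype.val h2
  refine hC.sub _ f.ker
    { toFun := fun x => ⟨((x : K) : G), hmem x⟩
      map_one' := rfl
      map_mul' := fun _ _ => rfl } ?_ h
  intro x y hxy
  have h1 : ((x : K) : G) = ((y : K) : G) := congrArg (Subtype.val : f.ker → G) hxy
  exact Subtype.ext (Subtype.ext h1)

/-- torsion-free abelian groups -/
theorem ab (hC : Kl C) {G : Type} [Group G] (hG : C G) {A : Type} [CommGroup A] (hA : TF A) :
    C A := by
  refine hC.ext_ab hA (MonoidHom.id A) (hC.triv hG ?_)
  rintro ⟨x, hx⟩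
  exact Subtype.ext hx

theorem tf_pi {I : Type} {G : I → Type} [∀ i, Group (G i)] (h : ∀ i, TF (G i)) :
    TF (∀ i, G i) := by
  intro g n hn hg
  funext i
  exact h i _ n hn (congrFun hg i)

/-- the length -/
def wn (L : Type) [Group L] : Wr L →* Multiplicative ℤ where
  toFun a := Multiplicative.ofAdd a.n
  map_one' := rfl
  map_mul' _ _ := rfl

/-- the lamps on the kernel of the length -/
def wk (L : Type) [Group L] : (wn L).ker →* (ℤ → L) where
  toFun a := (a : Wr L).k
  map_one' := rfl
  map_mul' a b := by
    funext i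
    have h : ((a : (wn L).ker) : Wr L).n = 0 := Multiplicative.ofAdd.injective a.2
    rw [Subgroup.coe_mul, Wr.mul_k, h, sub_zero]
    rfl

theorem wk_inj (L : Type) [Group L] : Function.Injective (wk L) := by
  intro a b h
  apply Subtype.ext
  apply Wr.ext
  · exact h
  · have h1 : ((a : (wn L).ker) : Wr L).n = 0 := Multiplicative.ofAdd.injective a.2
    have h2 : ((b : (wn L).ker) : Wr L).n = 0 := Multiplicative.ofAdd.injective b.2
    rw [h1, h2]

theorem wr_of_pi (hC : Kl C) {L : Type} [Group L] (h : C (ℤ → L)) : C (Wr L) :=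
  hC.ext_int (wn L) (hC.sub _ _ (wk L) (wk_inj L) h)

theorem wr_int (hC : Kl C) {G : Type} [Group G] (hG : C G) : C (Wr (Multiplicative ℤ)) :=
  hC.wr_of_pi (hC.ab hG (tf_pi fun _ => tf_int))

theorem pi_wr_int (hC : Kl C) {G : Type} [Group G] (hG : C G) :
    C (ℤ → Wr (Multiplicative ℤ)) := by
  set f : (ℤ → Wr (Multiplicative ℤ)) →* (ℤ → Multiplicative ℤ) :=
    { toFun := fun a i => wn _ (a i)
      map_one' := rfl
      map_mul' := fun _ _ => rfl } with hf
  refine hC.ext_ab (Q := ℤ → Multiplicative ℤ) (tf_pi fun _ => tf_int) f ?_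
  have hn : ∀ (a : f.ker) (i : ℤ), ((a : ℤ → Wr (Multiplicative ℤ)) i).n = 0 := by
    rintro ⟨a, ha⟩ i
    exact Multiplicative.ofAdd.injective (congrFun (MonoidHom.mem_ker.1 ha) i)
  refine hC.sub f.ker (ℤ → ℤ → Multiplicative ℤ)
    { toFun := fun a i j => ((a : ℤ → Wr (Multiplicative ℤ)) i).k j
      map_one' := rfl
      map_mul' := ?_ } ?_ (hC.ab hG (tf_pi fun _ => tf_pi fun _ => tf_int))
  · intro a b
    funext i j
    rw [Subgroup.coe_mul, Pi.mul_apply, Wr.mul_k, hn a i, sub_zero]
    rfl
  · intro a b hab
    apply Subtype.ext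
    funext i
    apply Wr.ext
    · funext j
      exact congrFun (congrFun hab i) j
    · rw [hn a i, hn b i]

theorem wr_wr_int (hC : Kl C) {G : Type} [Group G] (hG : C G) :
    C (Wr (Wr (Multiplicative ℤ))) := hC.wr_of_pi (hC.pi_wr_int hG)

/-- finite powers -/
theorem pow (hC : Kl C) {G : Type} [Group G] (hG : C G) (n : ℕ) : C (Fin n → G) := by
  induction n with
  | zero => exact hC.triv hG fun x => Subsingleton.elim _ _
  | succ n ih =>
    refine hC.sub (Fin (n + 1) → G) (G × (Fin n → G))
      { toFun := fun a => (a 0, fun i => a i.succ)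
        map_one' := rfl
        map_mul' := fun _ _ => rfl } ?_ (hC.prod _ _ hG ih)
    intro a b hab
    funext i
    refine Fin.cases ?_ (fun j => ?_) i
    · exact congrArg Prod.fst hab
    · exact congrFun (congrArg Prod.snd hab) j

/-- finitely supported functions -/
def FS (G : Type) [Group G] : Subgroup (ℤ → G) where
  carrier := {a | {i : ℤ | a i ≠ 1}.Finite}
  one_mem' := by
    have h1 : {i : ℤ | (1 : ℤ → G) i ≠ 1} = ∅ := by
      ext i
      simp
    show {i : ℤ | (1 : ℤ → G) i ≠ 1}.Finite
    rw [h1]
    exact Set.finite_empty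
  mul_mem' := by
    intro a b ha hb
    refine (ha.union hb).subset ?_
    intro i hi
    by_contra hcon
    apply hi
    simp only [Set.mem_union, Set.mem_ofPred_eq, not_or, not_not] at hcon
    rw [Pi.mul_apply, hcon.1, hcon.2, one_mul]
  inv_mem' := by
    intro a ha
    refine Set.Finite.subset ha ?_
    intro i hi h1
    apply hi
    rw [Pi.inv_apply, h1, inv_one]

theorem mem_FS {G : Type} [Group G] (a : ℤ → G) : a ∈ FS G ↔ {i : ℤ | a i ≠ 1}.Finite := Iff.rfl

theorem fs (hC : Kl C) {G : Type} [Group G] (hG : C G) : C (FS G) := by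
  classical
  apply hC.loc
  rintro K ⟨S, hS⟩
  -- the common support
  have hfin : ∀ x : FS G, {i : ℤ | (x : ℤ → G) i ≠ 1}.Finite := fun x => x.2
  set U : Finset ℤ := S.biUnion fun x => (hfin x).toFinset with hU
  have hK : ∀ x ∈ K, ∀ i, i ∉ U → (x : ℤ → G) i = 1 := by
    intro x hx
    rw [← hS] at hx
    refine Subgroup.closure_induction (p := fun (x : FS G) _ => ∀ i, i ∉ U → (x : ℤ → G) i = 1)
      ?_ ?_ ?_ ?_ hx
    · intro y hy i hi
      by_contra hcon
      apply hi
      rw [hU, Finset.mem_biUnion]
      exact ⟨y, Finset.mem_coe.1 hy, (Set.Finite.mem_toFinset _).2 hcon⟩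
    · intro i _
      rfl
    · intro y z _ _ hy hz i hi
      rw [Subgroup.coe_mul, Pi.mul_apply, hy i hi, hz i hi, one_mul]
    · intro y _ hy i hi
      rw [Subgroup.coe_inv, Pi.inv_apply, hy i hi, inv_one]
  let e := U.equivFin
  refine hC.sub K (Fin U.card → G)
    { toFun := fun x j => ((x : FS G) : ℤ → G) (e.symm j : ℤ)
      map_one' := rfl
      map_mul' := fun _ _ => rfl } ?_ (hC.pow hG _)
  intro x y hxy
  apply Subtype.ext
  apply Subtype.ext
  funext i
  by_cases hi : i ∈ U
  · have := congrFun hxy (e ⟨i, hi⟩)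
    simpa using this
  · rw [hK x x.2 i hi, hK y y.2 i hi]

/-- the restricted wreath product with `ℤ`, as a subgroup of the unrestricted one -/
def RW (G : Type) [Group G] : Subgroup (Wr G) where
  carrier := {a | {i : ℤ | a.k i ≠ 1}.Finite}
  one_mem' := by
    have h1 : {i : ℤ | (1 : Wr G).k i ≠ 1} = ∅ := by
      ext i
      simp [Wr.one_k]
    show {i : ℤ | (1 : Wr G).k i ≠ 1}.Finite
    rw [h1]
    exact Set.finite_empty
  mul_mem' := by
    intro a b ha hb
    have hb' : ((fun i => i + a.n) '' {i : ℤ | b.k i ≠ 1}).Finite := hb.image _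
    refine (ha.union hb').subset ?_
    intro i hi
    by_cases h1 : a.k i = 1
    · right
      refine ⟨i - a.n, ?_, by simp⟩
      intro h2
      apply hi
      rw [Wr.mul_k, h1, h2, one_mul]
    · left
      exact h1
  inv_mem' := by
    intro a ha
    have ha' : ((fun i => i - a.n) '' {i : ℤ | a.k i ≠ 1}).Finite := ha.image _
    refine ha'.subset ?_
    intro i hi
    refine ⟨i + a.n, ?_, by simp⟩
    intro h2
    apply hi
    rw [Wr.inv_k, h2, inv_one]

theorem rw_mem (hC : Kl C) {G : Type} [Group G] (hG : C G) : C (RW G) := by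
  set p : RW G →* Multiplicative ℤ := (wn G).comp (RW G).subtype with hp
  apply hC.ext_int p
  have hn : ∀ a : p.ker, ((a : RW G) : Wr G).n = 0 := fun a => Multiplicative.ofAdd.injective a.2
  refine hC.sub p.ker (FS G)
    { toFun := fun a => ⟨((a : RW G) : Wr G).k, (a : RW G).2⟩
      map_one' := rfl
      map_mul' := ?_ } ?_ (hC.fs hG)
  · intro a b
    apply Subtype.ext
    funext i
    show (((a : RW G) : Wr G) * ((b : RW G) : Wr G)).k i =
      ((a : RW G) : Wr G).k i * ((b : RW G) : Wr G).k i
    rw [Wr.mul_k, hn a, sub_zero]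
  · intro a b hab
    apply Subtype.ext
    apply Subtype.ext
    apply Wr.ext
    · exact congrArg Subtype.val hab
    · rw [hn a, hn b]

/-- functoriality of the wreath product -/
def wmap {L L' : Type} [Group L] [Group L'] (f : L →* L') : Wr L →* Wr L' where
  toFun a := ⟨fun i => f (a.k i), a.n⟩
  map_one' := by
    apply Wr.ext
    · funext i
      show f 1 = 1
      rw [map_one]
    · rfl
  map_mul' a b := by
    apply Wr.ext
    · funext i
      show f (a.k i * b.k (i - a.n)) = f (a.k i) * f (b.k (i - a.n))
      rw [map_mul]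
    · rfl

/-- the group of the machine is in the class -/
theorem hs (hC : Kl C) {G : Type} [Group G] (hG : C G) : C (Hs G) := by
  have h1 := hC.prod _ _ (hC.rw_mem hG) (hC.wr_wr_int hG)
  refine hC.sub (Hs G) _
    { toFun := fun a => (⟨wmap (MonoidHom.fst G (Wr (Multiplicative ℤ))) (a : Hg G), a.2⟩,
        wmap (MonoidHom.snd G (Wr (Multiplicative ℤ))) (a : Hg G))
      map_one' := ?_
      map_mul' := ?_ } ?_ h1
  · rw [Prod.mk_eq_one]
    refine ⟨Subtype.ext ?_, ?_⟩
    · exact map_one _
    · exact map_one _
  · intro a b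
    rw [Prod.mk_mul_mk]
    refine Prod.ext (Subtype.ext ?_) ?_
    · exact map_mul (wmap (MonoidHom.fst G (Wr (Multiplicative ℤ)))) (a : Hg G) (b : Hg G)
    · exact map_mul (wmap (MonoidHom.snd G (Wr (Multiplicative ℤ)))) (a : Hg G) (b : Hg G)
  · intro a b hab
    have e1 := congrArg (fun q => ((Prod.fst q : RW G) : Wr G)) hab
    have e2 := congrArg (fun q => (Prod.snd q : Wr (Wr (Multiplicative ℤ)))) hab
    apply Subtype.ext
    apply Wr.ext
    · funext i
      apply Prod.ext
      · exact congrFun (congrArg Wr.k e1) i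
      · exact congrFun (congrArg Wr.k e2) i
    · exact congrArg (Wr.n : Wr G → ℤ) e1

end Kl

end Pool.Agent.V5helper38.AA
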