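import Pool.Agent.V5helper38.AA.Min

/-!
The lamp machine over a small group: restricted lamps, and the instructions in a solvable group.
-/

set_option autoImplicit false
set_option linter.unusedSectionVars false

open scoped InnerProductSpace ENNReal ComplexConjugate
open Filter Topology

namespace Pool.Agent.V5helper38.AA

open Pool.Agent.W656.VA
open Pool.Agent.H80R2
open Pool.Agent.H80R2.BC (L2 GMat vdim IsTr LInv Equi act kerA Coef)
open Pool.Agent.H812R3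
open Pool.Agent.TH25.AD

/-- the machine of a subgroup -/
def res {H : Type} [Group H] (M : Mach H) (K : Subgroup H) (hf : M.f ∈ K) (hg : M.g ∈ K)
    (hh : M.h ∈ K) (P : Submodule ℂ (L2 (Unit × K))) (hP : IsClosed (P : Set (L2 (Unit × K))))
    (hloc : Loc ((M.DI {0}).subgroupOf K) P) : Mach K where
  f := ⟨M.f, hf⟩
  g := ⟨M.g, hg⟩
  h := ⟨M.h, hh⟩
  DI I := (M.DI I).subgroupOf K
  mono := fun hIJ => Subgroup.comap_mono (M.mono hIJ)
  comm := by
    intro I J hIJ a ha b hb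
    exact Subtype.ext (M.comm hIJ a (Subgroup.mem_subgroupOf.1 ha) b (Subgroup.mem_subgroupOf.1 hb))
  triv := by
    intro I J hIJ a ha hb
    exact Subtype.ext (M.triv hIJ a (Subgroup.mem_subgroupOf.1 ha) (Subgroup.mem_subgroupOf.1 hb))
  shift := by
    intro n a ha
    rw [Subgroup.mem_subgroupOf]
    exact M.shift n a (Subgroup.mem_subgroupOf.1 ha)
  shift' := by
    intro n a ha
    rw [Subgroup.mem_subgroupOf]
    exact M.shift' n a (Subgroup.mem_subgroupOf.1 ha)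
  gc := by
    intro a ha
    exact Subtype.ext (M.gc a (Subgroup.mem_subgroupOf.1 ha))
  hc := by
    intro a ha
    exact Subtype.ext (M.hc a (Subgroup.mem_subgroupOf.1 ha))
  P := P
  closed := hP
  loc := hloc

section

variable (G : Type) [Group G]

/-- the elements with finitely many nontrivial lamps -/
def Hs : Subgroup (Hg G) where
  carrier := {a | {i : ℤ | (a.k i).1 ≠ 1}.Finite}
  one_mem' := by
    have h1 : {i : ℤ | ((1 : Hg G).k i).1 ≠ 1} = ∅ := by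
      ext i
      simp only [Set.mem_ofPred_eq, Set.mem_empty_iff_false, iff_false, not_not]
      rfl
    show {i : ℤ | ((1 : Hg G).k i).1 ≠ 1}.Finite
    rw [h1]
    exact Set.finite_empty
  mul_mem' := by
    intro a b ha hb
    have hb' : ((fun i => i + a.n) '' {i : ℤ | (b.k i).1 ≠ 1}).Finite := hb.image _
    refine (ha.union hb').subset ?_
    intro i hi
    by_cases h1 : (a.k i).1 = 1
    · right
      refine ⟨i - a.n, ?_, by simp⟩
      intro h2
      apply hi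
      rw [Wr.mul_k, Prod.fst_mul, h1, h2, one_mul]
    · left
      exact h1
  inv_mem' := by
    intro a ha
    have ha' : ((fun i => i - a.n) '' {i : ℤ | (a.k i).1 ≠ 1}).Finite := ha.image _
    refine ha'.subset ?_
    intro i hi
    refine ⟨i + a.n, ?_, by simp⟩
    intro h2
    apply hi
    rw [Wr.inv_k, Prod.fst_inv, h2, inv_one]

variable {G}

theorem mem_Hs (a : Hg G) : a ∈ Hs G ↔ {i : ℤ | (a.k i).1 ≠ 1}.Finite := Iff.rfl

theorem mem_Hs_of {a : Hg G} (h : ∀ i, i ≠ 0 → (a.k i).1 = 1) : a ∈ Hs G := by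
  refine (Set.finite_singleton (0 : ℤ)).subset ?_
  intro i hi
  by_contra hcon
  exact hi (h i hcon)

theorem t_mem : (Wr.t : Hg G) ∈ Hs G := mem_Hs_of fun _ _ => rfl

theorem gg_mem (S : Set ℕ) : gg G S ∈ Hs G := mem_Hs_of fun _ _ => rfl

theorem hh_mem : hh G ∈ Hs G := mem_Hs_of fun _ _ => rfl

theorem inc_mem_Hs (x : G) : inc G x ∈ Hs G := mem_Hs_of fun i hi => by
  rw [inc_k, if_neg hi]
  rfl

/-- the inclusion of `G` -/
def inc' (G : Type) [Group G] : G →* Hs G := (inc G).codRestrict (Hs G) inc_mem_Hs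

theorem inc'_coe (x : G) : ((inc' G x : Hs G) : Hg G) = inc G x := rfl

theorem inc'_inj : Function.Injective (inc' G) := by
  intro x y h
  apply inc_inj (G := G)
  rw [← inc'_coe, h, inc'_coe]

theorem tf_sub {H : Type} [Group H] (h : TF H) (K : Subgroup H) : TF K := by
  intro g n hn hg
  apply Subtype.ext
  refine h _ n hn ?_
  have := congrArg (Subtype.val : K → H) hg
  simpa using this

/-- the zero machine over the large group (only its group theory is used) -/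
noncomputable def mach0 (G : Type) [Group G] (S : Set ℕ) : Mach (Hg G) :=
  mach G S ⊥ (by
    rw [Submodule.bot_coe]
    exact isClosed_singleton) (by
    intro X _ x hx
    rw [Submodule.mem_bot] at hx ⊢
    rw [hx, map_zero])

/-- definability of the solution space -/
theorem dfn_Sol' {H : Type} [Group H] (M : Mach H) {R : Subring ℂ} {a d : ℝ} (hP : Dfn R M.P a)
    (hN : Dfn R M.Pᗮ d) : Dfn R M.Sol (4 * d + 4 * a) := by
  have hZ : ∀ i : Fin 4, Dfn R ((M.Pᗮ).comap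
      (op (rw2 i i 1 M.f) : L2 (Fin 4 × H) →ₗ[ℂ] L2 (Unit × H))) d :=
    fun i => hN.comap (coef_rw2 _ _ _ _)
  have h1 : Dfn R ((M.P).comap
      (op (rw2 2 0 1 M.g) : L2 (Fin 4 × H) →ₗ[ℂ] L2 (Unit × H))) a := hP.comap (coef_rw2 _ _ _ _)
  have h2 : Dfn R ((M.P).comap
      (op (rw2 3 1 1 M.g) : L2 (Fin 4 × H) →ₗ[ℂ] L2 (Unit × H))) a := hP.comap (coef_rw2 _ _ _ _)
  have h3 : Dfn R ((M.P).comap
      (op (rw2 1 0 M.f (M.f * M.h)) : L2 (Fin 4 × H) →ₗ[ℂ] L2 (Unit × H))) a :=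
    hP.comap (coef_rw2 _ _ _ _)
  have h4 : Dfn R ((M.P).comap
      (op (rw2 3 2 M.f (M.f * M.h)) : L2 (Fin 4 × H) →ₗ[ℂ] L2 (Unit × H))) a :=
    hP.comap (coef_rw2 _ _ _ _)
  have h5 := ((((hZ 0).inf (hZ 1)).inf (hZ 2)).inf (hZ 3)).inf ((h1.inf h2).inf (h3.inf h4))
  have e1 : d + d + d + d + (a + a + (a + a)) = 4 * d + 4 * a := by ring
  rw [e1] at h5
  have e2 : M.Sol = ((((M.Pᗮ).comap
      (op (rw2 0 0 1 M.f) : L2 (Fin 4 × H) →ₗ[ℂ] L2 (Unit × H)) ⊓ (M.Pᗮ).comap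
      (op (rw2 1 1 1 M.f) : L2 (Fin 4 × H) →ₗ[ℂ] L2 (Unit × H))) ⊓ (M.Pᗮ).comap
      (op (rw2 2 2 1 M.f) : L2 (Fin 4 × H) →ₗ[ℂ] L2 (Unit × H))) ⊓ (M.Pᗮ).comap
      (op (rw2 3 3 1 M.f) : L2 (Fin 4 × H) →ₗ[ℂ] L2 (Unit × H))) ⊓ (((M.P).comap
      (op (rw2 2 0 1 M.g) : L2 (Fin 4 × H) →ₗ[ℂ] L2 (Unit × H)) ⊓ (M.P).comap
      (op (rw2 3 1 1 M.g) : L2 (Fin 4 × H) →ₗ[ℂ] L2 (Unit × H))) ⊓ ((M.P).comap
      (op (rw2 1 0 M.f (M.f * M.h)) : L2 (Fin 4 × H) →ₗ[ℂ] L2 (Unit × H)) ⊓ (M.P).comap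
      (op (rw2 3 2 M.f (M.f * M.h)) : L2 (Fin 4 × H) →ₗ[ℂ] L2 (Unit × H)))) := by
    ext x
    simp only [Submodule.mem_inf, Submodule.mem_comap, ContinuousLinearMap.coe_coe, op_rw2,
      U_one, U_mul, ← map_sub]
    rw [M.mem_Sol]
    constructor
    · rintro ⟨k1, ⟨k2, k3⟩, k4, k5⟩
      exact ⟨⟨⟨⟨k1 0, k1 1⟩, k1 2⟩, k1 3⟩, ⟨k2, k3⟩, k4, k5⟩
    · rintro ⟨⟨⟨⟨a0, a1⟩, a2⟩, a3⟩, ⟨k2, k3⟩, k4, k5⟩
      refine ⟨?_, ⟨k2, k3⟩, k4, k5⟩
      intro i
      fin_cases i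
      · exact a0
      · exact a1
      · exact a2
      · exact a3
  rw [e2]
  exact h5

/-- the values of the machine for a lamp `P` -/
theorem value_gen {R : Subring ℂ} (hG : TF G) (P : Submodule ℂ (L2 (Unit × Hs G)))
    (hP : IsClosed (P : Set (L2 (Unit × Hs G)))) (hloc : Loc ((DIg G {0}).subgroupOf (Hs G)) P)
    {a b : ℝ} (ha : Dfn R P a) (hb : Dfn R Pᗮ b) (h1 : vdim P < 1) (S : Set ℕ)
    [DecidablePred (· ∈ S)] :
    ∃ w : ℝ, HasSum (fun n : ℕ => if n ∈ S then (1 - vdim P) ^ 2 * vdim P ^ n else 0) w ∧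
      Val R (Hs G) (w + (4 * b + 4 * a)) := by
  set M : Mach (Hs G) := res (mach0 G S) (Hs G) t_mem (gg_mem S) hh_mem P hP hloc with hM
  have hα : M.α = vdim P := rfl
  have d3 := (dfn_Sol' M (show Dfn R M.P a from ha) (show Dfn R M.Pᗮ b from hb)).val
  have hgn : ∀ n : ℤ, ((M.gn n : Hs G) : Hg G) = (mach0 G S).gn n := by
    intro n
    show (((⟨Wr.t, t_mem⟩ : Hs G) ^ n * ⟨gg G S, gg_mem S⟩ * ((⟨Wr.t, t_mem⟩ : Hs G) ^ n)⁻¹ : Hs G) :
      Hg G) = Wr.t ^ n * gg G S * (Wr.t ^ n)⁻¹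
    simp
  have hhh : ((M.h : Hs G) : Hg G) = (mach0 G S).h := rfl
  have h3 := M.vdim_Sol (by rw [hα]; exact h1) S
    (fun n hn => by
      apply Subtype.ext
      rw [Subgroup.coe_mul, Subgroup.coe_mul, hgn, hhh]
      exact mach_good S _ _ _ n hn) (by
      intro n hn k hk hc
      refine mach_bad (G := G) S ⊥ (by
        rw [Submodule.bot_coe]
        exact isClosed_singleton) (by
        intro X _ x hx
        rw [Submodule.mem_bot] at hx ⊢
        rw [hx, map_zero]) n hn ?_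
      have h4 := tf_sub (tf_Hg hG) (Hs G) _ k hk hc
      have h5 := inv_mul_eq_one.1 h4
      have h6 := congrArg (Subtype.val : Hs G → Hg G) h5.symm
      rw [Subgroup.coe_mul, Subgroup.coe_mul, hgn, hhh] at h6
      exact h6)
  rw [hα] at h3
  exact ⟨vdim M.Sol, h3, d3⟩

/-- **The values of the machine.** -/
theorem value' {R : Subring ℂ} (hR : ∀ c ∈ R, conj c ∈ R) (hG : TF G)
    {ι κ : Type} [Fintype ι] [Fintype κ] (A : GMat κ ι G) (T : GMat Unit ι G) (hA : Coef R A)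
    (hT : Coef R T) (h : kerA A ⊓ kerA T = ⊥) (h0 : 0 < vdim (kerA A)) (h1 : vdim (kerA A) < 1)
    (S : Set ℕ) [DecidablePred (· ∈ S)] :
    (∃ w : ℝ, HasSum (fun n : ℕ => if n ∈ S then (1 - vdim (kerA A)) ^ 2 * vdim (kerA A) ^ n
        else 0) w ∧ Val R (Hs G) (w + 4 * (Fintype.card κ - Fintype.card ι + vdim (kerA A)))) ∧
    (∃ w : ℝ, HasSum (fun n : ℕ => if n ∈ S then vdim (kerA A) ^ 2 * (1 - vdim (kerA A)) ^ n
        else 0) w ∧ Val R (Hs G) (w + 4 * (Fintype.card κ - Fintype.card ι + vdim (kerA A)))) := by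
  set A2 := BC.push (inc' G) A with hA2
  set T2 := BC.push (inc' G) T with hT2
  have hv : vdim (kerA A2) = vdim (kerA A) := vdim_push (inc' G) inc'_inj A
  have hbot : kerA A2 ⊓ kerA T2 = ⊥ := by
    rw [hA2, hT2, ← kerA_stack, ← push_stack]
    apply eq_bot_of_vdim (isClosed_kerA _) (linv_kerA _)
    rw [vdim_push (inc' G) inc'_inj, kerA_stack, h, vdim_bot]
  have hsupp : ∀ (a : G →₀ ℂ), ∀ x ∈ (a.mapDomain (inc' G)).support,
      x ∈ (DIg G {0}).subgroupOf (Hs G) := by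
    classical
    intro a x hx
    have := Finsupp.mapDomain_support hx
    rw [Finset.mem_image] at this
    obtain ⟨y, _, rfl⟩ := this
    rw [Subgroup.mem_subgroupOf]
    exact inc_mem y
  have hloc : Loc ((DIg G {0}).subgroupOf (Hs G)) (lampP A2 T2) :=
    loc_lampP _ (fun k i x hx => hsupp _ x hx) (fun k i x hx => hsupp _ x hx)
  have hα : vdim (lampP A2 T2) = vdim (kerA A) := by
    rw [← hv]
    exact vdim_lampP A2 T2 hbot
  have hc1 := coef_push (inc' G) A hA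
  have hc2 := coef_push (inc' G) T hT
  have d1 : Dfn R (lampP A2 T2) 0 := dfn_lampP hc1 hc2 hbot
  have d2 : Dfn R (lampP A2 T2)ᗮ (Fintype.card κ - Fintype.card ι + vdim (kerA A)) := by
    rw [← hv]
    exact dfn_lampP_orth hR hc1 hc2
  constructor
  · obtain ⟨w, hw, hw2⟩ := value_gen hG _ (closed_lampP A2 T2) hloc d1 d2 (by rw [hα]; exact h1) S
    rw [hα] at hw
    rw [mul_zero, add_zero] at hw2
    exact ⟨w, hw, hw2⟩
  · have iP := hasProj (closed_lampP A2 T2)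
    have hoo : ((lampP A2 T2)ᗮ)ᗮ = lampP A2 T2 := Submodule.orthogonal_orthogonal _
    have hvo : vdim (lampP A2 T2)ᗮ = 1 - vdim (kerA A) := by
      rw [vdim_orth, hα, Fintype.card_unit, Nat.cast_one]
    obtain ⟨w, hw, hw2⟩ := value_gen hG _ (isClosed_orth (lampP A2 T2)) hloc.orth d2
      (by rw [hoo]; exact d1) (by rw [hvo]; linarith) S
    rw [hvo, sub_sub_cancel] at hw
    rw [mul_zero, zero_add] at hw2
    exact ⟨w, hw, hw2⟩

end

end Pool.Agent.V5helper38.AA
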