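import Pool.Agent.TH25.AD.A7

/-!
If some kernel dimension over `R[G]` is not an integer, then there is a matrix over `R[G]` with a
kernel of dimension strictly between `0` and `1`, on which one of the coordinates is injective.
-/

set_option autoImplicit false
set_option linter.unusedSectionVars false

open scoped InnerProductSpace ENNReal ComplexConjugate
open Filter Topology

namespace Pool.Agent.V5helper38.AA

open Pool.Agent.W656.VA
open Pool.Agent.H80R2
open Pool.Agent.H80R2.BC (L2 GMat vdim IsTr LInv Equi act kerA Coef)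
open Pool.Agent.H812R3
open Pool.Agent.TH25.AD

section

variable {ι κ G : Type} [Group G] [Fintype ι] [Fintype κ]

/-- the vectors whose coordinates in `J` vanish -/
def van (G : Type) [Group G] {ι : Type} (J : Set ι) : Submodule ℂ (L2 (ι × G)) where
  carrier := {x | ∀ j ∈ J, ∀ g, x (j, g) = 0}
  zero_mem' := fun _ _ _ => rfl
  add_mem' := by
    intro x y hx hy j hj g
    rw [lp.coeFn_add, Pi.add_apply, hx j hj g, hy j hj g, add_zero]
  smul_mem' := by
    intro c x hx j hj g
    rw [lp.coeFn_smul, Pi.smul_apply, hx j hj g, smul_zero]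

theorem mem_van {J : Set ι} {x : L2 (ι × G)} : x ∈ van G J ↔ ∀ j ∈ J, ∀ g, x (j, g) = 0 := Iff.rfl

theorem linv_van (J : Set ι) : LInv (van G J) := by
  intro g x y hx hxy j hj h
  rw [hxy j h]
  exact hx j hj _

theorem closed_van (J : Set ι) : IsClosed (van G J : Set (L2 (ι × G))) := by
  have h1 : (van G J : Set (L2 (ι × G))) = ⋂ j : J, (kr (cj (H := G) (j : ι)) : Set (L2 (ι × G))) := by
    ext x
    rw [Set.mem_iInter]
    constructor
    · rintro hx ⟨j, hj⟩
      show x ∈ kr (cj j)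
      rw [mem_kr]
      ext ⟨⟨⟩, g⟩
      rw [cj_apply]
      exact hx j hj g
    · intro hx j hj g
      have h2 : x ∈ kr (cj (H := G) j) := hx ⟨j, hj⟩
      rw [mem_kr] at h2
      rw [← cj_apply j x g, h2]
      rfl
  rw [h1]
  exact isClosed_iInter fun j => isClosed_kr _

/-- the part of the kernel with vanishing coordinates in `J` -/
noncomputable def KJ (A : GMat κ ι G) (J : Set ι) : Submodule ℂ (L2 (ι × G)) := kerA A ⊓ van G J

theorem closed_KJ (A : GMat κ ι G) (J : Set ι) : IsClosed (KJ A J : Set (L2 (ι × G))) :=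
  isClosed_inf (isClosed_kerA A) (closed_van J)

theorem linv_KJ (A : GMat κ ι G) (J : Set ι) : LInv (KJ A J) := linv_inf (linv_kerA A) (linv_van J)

theorem KJ_empty (A : GMat κ ι G) : KJ A ∅ = kerA A := by
  unfold KJ
  rw [inf_eq_left]
  intro x _ j hj
  exact absurd hj (Set.notMem_empty j)

theorem KJ_univ (A : GMat κ ι G) : KJ A Set.univ = ⊥ := by
  rw [eq_bot_iff]
  rintro x ⟨_, hx⟩
  rw [Submodule.mem_bot]
  ext ⟨i, g⟩
  exact hx i (Set.mem_univ _) g

theorem KJ_union (A : GMat κ ι G) (J : Set ι) (j : ι) :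
    KJ A (insert j J) = KJ A J ⊓ kr (cj (H := G) j) := by
  unfold KJ
  ext x
  rw [Submodule.mem_inf, Submodule.mem_inf, Submodule.mem_inf, mem_van, mem_van, mem_kr]
  constructor
  · rintro ⟨h1, h2⟩
    refine ⟨⟨h1, fun i hi => h2 i (Set.mem_insert_of_mem _ hi)⟩, ?_⟩
    ext ⟨⟨⟩, g⟩
    rw [cj_apply]
    exact h2 j (Set.mem_insert _ _) g
  · rintro ⟨⟨h1, h2⟩, h3⟩
    refine ⟨h1, fun i hi g => ?_⟩
    rcases Set.mem_insert_iff.1 hi with rfl | hi
    · rw [← cj_apply i x g, h3]
      rfl
    · exact h2 i hi g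

/-- one more coordinate: the dimension goes down by at most one -/
theorem KJ_drop (A : GMat κ ι G) (J : Set ι) (j : ι) :
    vdim (KJ A J) ≤ vdim (KJ A (insert j J)) + 1 := by
  have h := vdim_rank_le (closed_KJ A J) (linv_KJ A J) (cj (H := G) j) (equi_cj j)
    (R := ⊤) isClosed_univ (fun _ _ => trivial)
  rw [← KJ_union, vdim_top] at h
  simpa using h

/-- the matrix with the columns outside `J` -/
def rst (A : GMat κ ι G) (J : Set ι) : GMat κ {i : ι // i ∉ J} G := fun k i => A k i

theorem inj_sub {ι : Type} (J : Set ι) :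
    Function.Injective (fun p : {i : ι // i ∉ J} × G => ((p.1 : ι), p.2)) := by
  rintro ⟨⟨a, ha⟩, b⟩ ⟨⟨c, hc⟩, d⟩ h
  simp only [Prod.mk.injEq] at h
  obtain ⟨rfl, rfl⟩ := h
  rfl

theorem act_rst (A : GMat κ ι G) (J : Set ι) [DecidablePred (· ∉ J)] (x : ι × G → ℂ)
    (hx : ∀ j ∈ J, ∀ g, x (j, g) = 0) (k : κ) (g : G) :
    act A x k g = act (rst A J) (fun p => x ((p.1 : ι), p.2)) k g := by
  classical
  unfold act rst
  rw [← Fintype.sum_subtype_add_sum_subtype (fun i => i ∉ J)
    (fun i => (A k i).sum (fun h c => c * x (i, g * h)))]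
  have h1 : ∑ i : {i : ι // ¬ i ∉ J}, (A k i).sum (fun h c => c * x (i, g * h)) = 0 := by
    refine Finset.sum_eq_zero fun i _ => ?_
    have hi : (i : ι) ∈ J := not_not.1 i.2
    refine Finset.sum_eq_zero fun h _ => ?_
    show (A k i) h * x ((i : ι), g * h) = 0
    rw [hx _ hi, mul_zero]
  rw [h1, add_zero]

open Classical in
theorem vdim_rst (A : GMat κ ι G) (J : Set ι) : vdim (KJ A J) = vdim (kerA (rst A J)) := by
  set f : {i : ι // i ∉ J} × G → ι × G := fun p => ((p.1 : ι), p.2) with hf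
  have hinj : Function.Injective f := inj_sub J
  have hpull : ∀ (x : L2 (ι × G)) p, KP.pull f hinj x p = x (f p) := fun _ _ => rfl
  apply le_antisymm
  · refine vdim_inj_le (closed_KJ A J) (linv_KJ A J) (KP.pull f hinj) ?_ (isClosed_kerA _) ?_ ?_
    · exact equi_of fun _ _ => rfl
    · rintro x ⟨hx1, hx2⟩
      have hx1' : ∀ k g, act A x k g = 0 := hx1
      rw [mem_kerA]
      intro k g
      rw [← hx1' k g, act_rst A J x hx2]
      rfl
    · rintro x ⟨hx1, hx2⟩ h0
      ext ⟨i, g⟩
      by_cases hi : i ∈ J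
      · exact hx2 i hi g
      · have := congrArg (fun y : L2 ({i : ι // i ∉ J} × G) => y (⟨i, hi⟩, g)) h0
        exact this
  · have hpush : ∀ (x : L2 ({i : ι // i ∉ J} × G)) p, KP.push f hinj x (f p) = x p :=
      fun x p => pushL_apply f hinj x p
    have hpush0 : ∀ (x : L2 ({i : ι // i ∉ J} × G)) j, j ∈ J → ∀ g, KP.push f hinj x (j, g) = 0 := by
      intro x j hj g
      apply pushL_apply_ne
      rintro ⟨⟨a, ha⟩, b⟩ hab
      rw [hf, Prod.mk.injEq] at hab
      apply ha
      have h1 : a = j := hab.1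
      rw [h1]
      exact hj
    refine vdim_inj_le (isClosed_kerA _) (linv_kerA _) (KP.push f hinj) ?_ (closed_KJ A J) ?_ ?_
    · apply equi_of
      intro g x
      ext ⟨i, h⟩
      rw [lt_apply]
      by_cases hi : i ∈ J
      · rw [hpush0 _ i hi, hpush0 _ i hi]
      · have e1 : ∀ (y : L2 ({i : ι // i ∉ J} × G)) k, KP.push f hinj y (i, k) = y (⟨i, hi⟩, k) :=
          fun y k => hpush y (⟨i, hi⟩, k)
        rw [e1, e1, lt_apply]
    · intro x hx
      refine ⟨?_, fun j hj g => hpush0 x j hj g⟩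
      rw [mem_kerA] at hx
      show KP.push f hinj x ∈ kerA A
      rw [mem_kerA]
      intro k g
      rw [act_rst A J _ (fun j hj g => hpush0 x j hj g), ← hx k g]
      congr 1
      funext p
      exact hpush x p
    · intro x _ h0
      ext p
      rw [← hpush x p, h0]
      rfl

/-- the coordinate `i` -/
noncomputable def rowT (G : Type) [Group G] {ι : Type} [Fintype ι] (i : ι) : GMat Unit ι G := by
  classical exact fun _ k => if k = i then Finsupp.single 1 1 else 0

theorem coef_rowT (R : Subring ℂ) (i : ι) : Coef R (rowT G i) := by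
  classical
  intro u k h
  unfold rowT
  split_ifs
  · exact coef_single _ _ R.one_mem _
  · exact R.zero_mem

theorem kerA_rowT (i : ι) : kerA (rowT G i) = kr (cj (H := G) i) := by
  classical
  ext x
  rw [mem_kerA, mem_kr]
  have h1 : ∀ g, act (rowT G i) x () g = x (i, g) := by
    intro g
    unfold act rowT
    rw [Finset.sum_eq_single i]
    · rw [if_pos rfl, Finsupp.sum_single_index (by simp), one_mul, mul_one]
    · intro j _ hj
      rw [if_neg hj]
      simp
    · intro h
      exact absurd (Finset.mem_univ _) h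
  constructor
  · intro h
    ext ⟨⟨⟩, g⟩
    rw [cj_apply, ← h1, h]
    rfl
  · rintro h ⟨⟩ g
    rw [h1, ← cj_apply, h]
    rfl

end

/-- A matrix with a kernel dimension which is not an integer, such that the kernels with some
vanishing coordinates have integral dimensions. -/
theorem min_coord {G : Type} [Group G] {ι κ : Type} [Fintype ι] [Fintype κ]
    (A : GMat κ ι G) (hmin : ∀ J : Set ι, J.Nonempty → ∃ z : ℤ, vdim (KJ A J) = z)
    (hv : ¬ ∃ z : ℤ, vdim (kerA A) = z) :
    ∃ i0 : ι, kerA A ⊓ kerA (rowT G i0) = ⊥ ∧ 0 < vdim (kerA A) ∧ vdim (kerA A) < 1 := by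
  classical
  have hne : Nonempty ι := by
    by_contra hcon
    rw [not_nonempty_iff] at hcon
    apply hv
    refine ⟨0, ?_⟩
    have h1 := vdim_le_card (kerA A)
    have h2 := vdim_nonneg (kerA A)
    rw [Fintype.card_eq_zero, Nat.cast_zero] at h1
    rw [Int.cast_zero]
    linarith
  obtain ⟨i0⟩ := hne
  obtain ⟨z0, hz0⟩ := hmin {i0} ⟨i0, rfl⟩
  have hins : ∀ j : ι, ({j} : Set ι) = insert j ∅ := fun j => by simp
  have hd1 := KJ_drop A ∅ i0
  rw [← hins, KJ_empty, hz0] at hd1
  have hd0 : (z0 : ℝ) ≤ vdim (kerA A) := by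
    rw [← hz0]
    exact vdim_mono inf_le_left
  have hlt1 : vdim (kerA A) < z0 + 1 := by
    rcases hd1.lt_or_eq with h1 | h1
    · exact h1
    · exact absurd ⟨z0 + 1, by rw [h1]; push_cast; rfl⟩ hv
  have hgt0 : (z0 : ℝ) < vdim (kerA A) := by
    rcases hd0.lt_or_eq with h1 | h1
    · exact h1
    · exact absurd ⟨z0, h1.symm⟩ hv
  -- a set of coordinates which cuts the kernel of the first one
  let Q : ℕ → Prop := fun c => ∃ J : Finset ι, J.card = c ∧
    vdim (KJ A (insert i0 (J : Set ι))) + c = vdim (KJ A {i0})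
  have hQ0 : Q 0 := ⟨∅, rfl, by simp⟩
  have hQb : ∀ c, Q c → c ≤ Fintype.card ι := by
    rintro c ⟨J, rfl, _⟩
    exact Finset.card_le_univ J
  obtain ⟨c, hc, hcmax⟩ : ∃ c, Q c ∧ ∀ c', Q c' → c' ≤ c := by
    refine ⟨Nat.findGreatest Q (Fintype.card ι), Nat.findGreatest_spec (Nat.zero_le _) hQ0, ?_⟩
    intro c' hc'
    exact Nat.le_findGreatest (hQb c' hc') hc'
  obtain ⟨J, hJc, hJ⟩ := hc
  have hbot : KJ A (insert i0 (J : Set ι)) = ⊥ := by
    by_contra hcon
    obtain ⟨x, hx, hx0⟩ := (Submodule.ne_bot_iff _).1 hcon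
    obtain ⟨j, hj⟩ : ∃ j : ι, cj j x ≠ 0 := by
      by_contra hall
      push Not at hall
      exact hx0 (ext_cj fun i => by rw [hall i, map_zero])
    have hjmem : j ∉ insert i0 (J : Set ι) := by
      intro hmem
      apply hj
      ext ⟨⟨⟩, g⟩
      rw [cj_apply]
      exact hx.2 j hmem g
    obtain ⟨z1, hz1⟩ := hmin (insert i0 (J : Set ι)) ⟨i0, Set.mem_insert _ _⟩
    obtain ⟨z2, hz2⟩ := hmin (insert j (insert i0 (J : Set ι))) ⟨j, Set.mem_insert _ _⟩
    have h1 := KJ_drop A (insert i0 (J : Set ι)) j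
    have h2 : vdim (KJ A (insert j (insert i0 (J : Set ι)))) <
        vdim (KJ A (insert i0 (J : Set ι))) := by
      by_contra hcon2
      push Not at hcon2
      have hle : KJ A (insert j (insert i0 (J : Set ι))) ≤ KJ A (insert i0 (J : Set ι)) := by
        rw [KJ_union]
        exact inf_le_left
      have h3 := eq_of_vdim (closed_KJ A _) (linv_KJ A _) (closed_KJ A _) (linv_KJ A _) hle hcon2
      rw [← h3, KJ_union] at hx
      exact hj ((mem_kr _ _).1 hx.2)
    rw [hz1, hz2] at h1 h2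
    have h3 : z1 = z2 + 1 := by
      have h4 : z1 ≤ z2 + 1 := by exact_mod_cast h1
      have h5 : z2 < z1 := by exact_mod_cast h2
      omega
    have h4 : Q (c + 1) := by
      refine ⟨insert j J, ?_, ?_⟩
      · rw [Finset.card_insert_of_notMem, hJc]
        intro hcon3
        exact hjmem (Set.mem_insert_of_mem _ (Finset.mem_coe.2 hcon3))
      · rw [Finset.coe_insert, Set.insert_comm, hz2, ← hJ, hz1, h3]
        push_cast
        ring
    have := hcmax _ h4
    omega
  have hbotv : vdim (KJ A (insert i0 (J : Set ι))) = 0 := by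
    rw [hbot, vdim_bot]
  rw [hbotv, zero_add, hz0] at hJ
  -- the cut by `J` is empty
  have hJ0 : J = ∅ := by
    by_contra hcon
    have hJne : (J : Set ι).Nonempty := Finset.coe_nonempty.2 (Finset.nonempty_iff_ne_empty.2 hcon)
    obtain ⟨z3, hz3⟩ := hmin (J : Set ι) hJne
    have h1 := KJ_drop A (J : Set ι) i0
    rw [hbotv, zero_add, hz3] at h1
    -- lower bound
    have h2 : ∀ L : Finset ι, vdim (kerA A) ≤ vdim (KJ A (L : Set ι)) + L.card := by
      intro L
      induction L using Finset.induction_on with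
      | empty => rw [Finset.coe_empty, KJ_empty]; simp
      | insert a s ha ih =>
        have h3 := KJ_drop A (s : Set ι) a
        rw [Finset.coe_insert, Finset.card_insert_of_notMem ha]
        push_cast
        linarith
    have h3 := h2 J
    rw [hz3, hJc] at h3
    have h4 : (0 : ℝ) < z3 := by linarith
    have h5 : z3 = 1 := by
      have h6 : z3 ≤ 1 := by exact_mod_cast h1
      have h7 : 0 < z3 := by exact_mod_cast h4
      omega
    -- the rank of the first coordinate
    have h6 := vdim_rank (isClosed_kerA A) (linv_kerA A) (cj (H := G) i0) (equi_cj i0)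
    have h7 := vdim_rank (closed_KJ A (J : Set ι)) (linv_KJ A (J : Set ι)) (cj (H := G) i0)
      (equi_cj i0)
    rw [← KJ_union, hbotv, zero_add, hz3, h5] at h7
    have h8 : vdim ((KJ A (J : Set ι)).map
        (cj (H := G) i0 : L2 (ι × G) →ₗ[ℂ] L2 (Unit × G))).topologicalClosure ≤
        vdim ((kerA A).map
        (cj (H := G) i0 : L2 (ι × G) →ₗ[ℂ] L2 (Unit × G))).topologicalClosure := by
      apply vdim_mono
      exact Submodule.topologicalClosure_mono (Submodule.map_mono inf_le_left)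
    have h9 : vdim (kerA A ⊓ kr (cj (H := G) i0)) = z0 := by
      rw [← hz0, hins, KJ_union, KJ_empty]
    rw [h9] at h6
    push_cast at h7
    linarith
  rw [hJ0, Finset.card_empty] at hJc
  rw [← hJc, Nat.cast_zero] at hJ
  refine ⟨i0, ?_, ?_, ?_⟩
  · apply eq_bot_of_vdim (isClosed_inf (isClosed_kerA _) (isClosed_kerA _))
      (linv_inf (linv_kerA _) (linv_kerA _))
    rw [kerA_rowT, ← KJ_empty A, ← KJ_union, ← hins, hz0, ← hJ]
  · linarith
  · linarith

/-- A matrix with a kernel dimension which is not an integer, with the smallest possible number of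
columns. -/
theorem min_col {R : Subring ℂ} {G : Type} [Group G] {ι κ : Type} [Fintype ι] [Fintype κ]
    (A : GMat κ ι G) (hA : Coef R A)
    (hm : ∀ (ι' κ' : Type) [Fintype ι'] [Fintype κ'] (A' : GMat κ' ι' G),
      Fintype.card ι' < Fintype.card ι → Coef R A' → ∃ z : ℤ, vdim (kerA A') = z)
    (hv : ¬ ∃ z : ℤ, vdim (kerA A) = z) :
    ∃ T : GMat Unit ι G, Coef R T ∧ kerA A ⊓ kerA T = ⊥ ∧ 0 < vdim (kerA A) ∧
      vdim (kerA A) < 1 := by
  classical
  have hmin : ∀ J : Set ι, J.Nonempty → ∃ z : ℤ, vdim (KJ A J) = z := by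
    intro J hJ
    rw [vdim_rst]
    obtain ⟨j, hj⟩ := hJ
    exact hm {i : ι // i ∉ J} κ (rst A J) (Fintype.card_subtype_lt (x := j) (not_not.2 hj))
      (fun k i h => hA k i h)
  obtain ⟨i0, h1, h2, h3⟩ := min_coord A hmin hv
  exact ⟨rowT G i0, coef_rowT R i0, h1, h2, h3⟩

/-- **A kernel of dimension between `0` and `1`.** -/
theorem min_cut {R : Subring ℂ} {G : Type} [Group G] (h : ∃ v : ℝ, Val R G v ∧ ¬ ∃ z : ℤ, v = z) :
    ∃ (ι κ : Type) (_ : Fintype ι) (_ : Fintype κ) (A : GMat κ ι G) (T : GMat Unit ι G),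
      Coef R A ∧ Coef R T ∧ kerA A ⊓ kerA T = ⊥ ∧ 0 < vdim (kerA A) ∧ vdim (kerA A) < 1 := by
  classical
  let P : ℕ → Prop := fun m => ∃ (ι κ : Type) (_ : Fintype ι) (_ : Fintype κ) (A : GMat κ ι G),
    Fintype.card ι = m ∧ Coef R A ∧ ¬ ∃ z : ℤ, vdim (kerA A) = z
  have hP : ∃ m, P m := by
    obtain ⟨v, ⟨m, n, A, hA, rfl⟩, hv⟩ := h
    exact ⟨m, Fin m, Fin n, inferInstance, inferInstance, A, Fintype.card_fin m, hA, hv⟩
  obtain ⟨ι, κ, _, _, A, hcard, hA, hv⟩ := Nat.find_spec hP
  obtain ⟨T, hT⟩ := min_col A hA (by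
    intro ι' κ' _ _ A' hlt hA'
    by_contra hcon
    rw [hcard] at hlt
    exact Nat.find_min hP hlt ⟨ι', κ', inferInstance, inferInstance, A', rfl, hA', hcon⟩) hv
  exact ⟨ι, κ, inferInstance, inferInstance, A, T, hA, hT⟩

end Pool.Agent.V5helper38.AA
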